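import Mathlib

set_option autoImplicit false

namespace Pool.Agent.NoisyNil

/-- vertices of the square lattice -/
abbrev V := ℤ × ℤ
/-- edges: `(x, y, false)` joins `(x,y)` to `(x+1,y)`; `(x, y, true)` joins `(x,y)` to `(x,y+1)` -/
abbrev Ed := ℤ × ℤ × Bool

def src (e : Ed) : V := (e.1, e.2.1)
def tgt (e : Ed) : V := if e.2.2 then (e.1, e.2.1 + 1) else (e.1 + 1, e.2.1)

/-- the four edges of the plaquette with lower left corner `p` -/
def pe (p : V) (c : Fin 4) : Ed :=
  if c = 0 then (p.1, p.2, false)
  else if c = 1 then (p.1, p.2 + 1, false)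
  else if c = 2 then (p.1, p.2, true)
  else (p.1 + 1, p.2, true)

lemma pe0 (p : V) : pe p 0 = (p.1, p.2, false) := by simp [pe]
lemma pe1 (p : V) : pe p 1 = (p.1, p.2 + 1, false) := by simp [pe]
lemma pe2 (p : V) : pe p 2 = (p.1, p.2, true) := by simp [pe]
lemma pe3 (p : V) : pe p 3 = (p.1 + 1, p.2, true) := by simp [pe]

def Near (a b : Ed) : Prop := ∃ (p : V) (c c' : Fin 4), a = pe p c ∧ b = pe p c'

lemma Near.symm {a b : Ed} (h : Near a b) : Near b a := by
  obtain ⟨p, c, c', h1, h2⟩ := h
  exact ⟨p, c', c, h2, h1⟩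

def Linked (D : Finset Ed) : Prop :=
  ∀ T : Finset Ed, T ⊆ D → T.Nonempty → T ≠ D → ∃ a ∈ T, ∃ b ∈ D, b ∉ T ∧ Near a b

def cross (R : Finset V) (e : Ed) : Prop :=
  (src e ∈ R ∧ tgt e ∉ R) ∨ (src e ∉ R ∧ tgt e ∈ R)

instance (R : Finset V) : DecidablePred (cross R) := fun e => by unfold cross; infer_instance

def bd (R : Finset V) : Finset Ed :=
  ((((R ∪ R.image (fun v => ((v.1 - 1, v.2) : V))) ∪ R.image (fun v => ((v.1, v.2 - 1) : V))) ×ˢ
    (Finset.univ : Finset Bool)).image (fun q => ((q.1.1, q.1.2, q.2) : Ed))).filter (cross R)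

lemma mem_bd {R : Finset V} {e : Ed} : e ∈ bd R ↔ cross R e := by
  unfold bd
  rw [Finset.mem_filter]
  constructor
  · exact fun h => h.2
  · intro h
    refine ⟨?_, h⟩
    rw [Finset.mem_image]
    refine ⟨(src e, e.2.2), ?_, ?_⟩
    · rw [Finset.mem_product]
      refine ⟨?_, Finset.mem_univ _⟩
      obtain ⟨x, y, d⟩ := e
      rcases h with h | h
      · exact Finset.mem_union_left _ (Finset.mem_union_left _ h.1)
      · cases d with
        | false =>
          refine Finset.mem_union_left _ (Finset.mem_union_right _ ?_)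
          rw [Finset.mem_image]
          refine ⟨(x+1, y), ?_, ?_⟩
          · simpa [tgt] using h.2
          · simp [src]
        | true =>
          refine Finset.mem_union_right _ ?_
          rw [Finset.mem_image]
          refine ⟨(x, y+1), ?_, ?_⟩
          · simpa [tgt] using h.2
          · simp [src]
    · rfl

lemma z2 (a : ZMod 2) : a + a = 0 := CharTwo.add_self_eq_zero a

lemma exists_sum (a : ℤ → ZMod 2) : ∃ S : ℤ → ZMod 2, ∀ n, S (n+1) = S n + a n := by
  refine ⟨fun n => match n with
    | Int.ofNat k => ∑ i ∈ Finset.range k, a (i : ℤ)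
    | Int.negSucc k => ∑ i ∈ Finset.range (k+1), a (Int.negSucc i), ?_⟩
  intro n
  cases n with
  | ofNat k =>
    have : (Int.ofNat k + 1 : ℤ) = Int.ofNat (k+1) := rfl
    rw [this]
    simp only
    rw [Finset.sum_range_succ]
    rfl
  | negSucc k =>
    cases k with
    | zero =>
      have : (Int.negSucc 0 + 1 : ℤ) = Int.ofNat 0 := rfl
      rw [this]
      simp [z2]
    | succ k =>
      have : (Int.negSucc (k+1) + 1 : ℤ) = Int.negSucc k := rfl
      rw [this]
      simp only
      rw [Finset.sum_range_succ _ (k+1), add_assoc, z2, add_zero]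

lemma exists_prim (φ : Ed → ZMod 2)
    (h : ∀ p : V, φ (pe p 0) + φ (pe p 1) + φ (pe p 2) + φ (pe p 3) = 0) :
    ∃ g : V → ZMod 2, ∀ e, φ e = g (src e) + g (tgt e) := by
  obtain ⟨S, hS⟩ := exists_sum (fun x => φ (x, 0, false))
  choose T hT using fun x : ℤ => exists_sum (fun y => φ (x, y, true))
  refine ⟨fun v => S v.1 + T v.1 v.2 + T v.1 0, ?_⟩
  rintro ⟨x, y, d⟩
  cases d with
  | true =>
    simp only [src, tgt, if_true]
    rw [hT x y]
    have h1 := z2 (S x)
    have h2 := z2 (T x 0)
    have h3 := z2 (T x y)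
    linear_combination -h1 - h2 - h3
  | false =>
    simp only [src, tgt]
    simp only [Bool.false_eq_true, if_false]
    have key : ∀ y : ℤ, φ (x, y, false) + (S x + T x y + T x 0) + (S (x+1) + T (x+1) y + T (x+1) 0) = 0 := by
      intro y
      induction y using Int.induction_on with
      | zero =>
        rw [hS x]
        have h1 := z2 (S x)
        have h2 := z2 (T x 0)
        have h3 := z2 (T (x+1) 0)
        have h4 := z2 (φ (x, 0, false))
        linear_combination h1 + h2 + h3 + h4
      | succ i ih =>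
        have hp := h (x, (i:ℤ))
        rw [pe0, pe1, pe2, pe3] at hp
        simp only at hp
        rw [hT x i, hT (x+1) i]
        have h1 := z2 (φ (x, (i:ℤ), false))
        linear_combination ih + hp - h1
      | pred i ih =>
        have hp := h (x, (-(i:ℤ) - 1))
        rw [pe0, pe1, pe2, pe3] at hp
        simp only at hp
        have e1 : (-(i:ℤ) - 1) + 1 = -(i:ℤ) := by ring
        rw [e1] at hp
        have t1 := hT x (-(i:ℤ) - 1)
        have t2 := hT (x+1) (-(i:ℤ) - 1)
        rw [e1] at t1 t2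
        rw [t1, t2] at ih
        have h1 := z2 (φ (x, -(i:ℤ), false))
        have h2 := z2 (φ (x, -(i:ℤ) - 1, true))
        have h3 := z2 (φ (x + 1, -(i:ℤ) - 1, true))
        linear_combination ih + hp - h1 - h2 - h3
    have := key y
    have h1 := z2 (S x + T x y + T x 0 + (S (x+1) + T (x+1) y + T (x+1) 0))
    linear_combination this - h1

noncomputable def box (L : ℕ) : Finset V := Finset.Icc (-(L:ℤ)) L ×ˢ Finset.Icc (-(L:ℤ)) L

lemma mem_box {L : ℕ} {v : V} : v ∈ box L ↔ (-(L:ℤ) ≤ v.1 ∧ v.1 ≤ L) ∧ (-(L:ℤ) ≤ v.2 ∧ v.2 ≤ L) := by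
  unfold box
  rw [Finset.mem_product, Finset.mem_Icc, Finset.mem_Icc]

def adj (a b : V) : Prop := ∃ e : Ed, (src e = a ∧ tgt e = b) ∨ (src e = b ∧ tgt e = a)

lemma adj.symm {a b : V} (h : adj a b) : adj b a := by
  obtain ⟨e, h | h⟩ := h
  · exact ⟨e, Or.inr h⟩
  · exact ⟨e, Or.inl h⟩

/-- a function which does not change across edges of the complement of the box is constant there -/
lemma const_outside (L : ℕ) (g : V → ZMod 2)
    (hg : ∀ e : Ed, src e ∉ box L → tgt e ∉ box L → g (src e) = g (tgt e)) :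
    ∀ v, v ∉ box L → g v = g ((L:ℤ)+1, (L:ℤ)+1) := by
  have hv : ∀ x : ℤ, (∀ y, (x, y) ∉ box L) → ∀ y y', g (x, y) = g (x, y') := by
    intro x hx
    have step : ∀ y, g (x, y) = g (x, y+1) := by
      intro y
      have := hg (x, y, true) (by simpa [src] using hx y) (by simpa [tgt] using hx (y+1))
      simpa [src, tgt] using this
    have h0 : ∀ y, g (x, y) = g (x, 0) := by
      intro y
      induction y using Int.induction_on with
      | zero => rfl
      | succ i ih => rw [← ih]; exact (step i).symm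
      | pred i ih =>
        rw [← ih]
        have := step (-(i:ℤ) - 1)
        rwa [show (-(i:ℤ) - 1) + 1 = -(i:ℤ) by ring] at this
    intro y y'
    rw [h0 y, h0 y']
  have hh : ∀ y : ℤ, (∀ x, (x, y) ∉ box L) → ∀ x x', g (x, y) = g (x', y) := by
    intro y hy
    have step : ∀ x, g (x, y) = g (x+1, y) := by
      intro x
      have := hg (x, y, false) (by simpa [src] using hy x) (by simpa [tgt] using hy (x+1))
      simpa [src, tgt] using this
    have h0 : ∀ x, g (x, y) = g (0, y) := by
      intro x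
      induction x using Int.induction_on with
      | zero => rfl
      | succ i ih => rw [← ih]; exact (step i).symm
      | pred i ih =>
        rw [← ih]
        have := step (-(i:ℤ) - 1)
        rwa [show (-(i:ℤ) - 1) + 1 = -(i:ℤ) by ring] at this
    intro x x'
    rw [h0 x, h0 x']
  have hout1 : ∀ y, (((L:ℤ)+1, y) : V) ∉ box L := by
    intro y h
    rw [mem_box] at h
    simp only at h
    omega
  have hout2 : ∀ x, ((x, (L:ℤ)+1) : V) ∉ box L := by
    intro y h
    rw [mem_box] at h
    simp only at h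
    omega
  rintro ⟨x, y⟩ hxy
  by_cases hx : ∀ y', ((x, y') : V) ∉ box L
  · rw [hv x hx y ((L:ℤ)+1)]
    exact hh _ hout2 _ _
  · have hy : ∀ x', ((x', y) : V) ∉ box L := by
      push Not at hx
      obtain ⟨y', hy'⟩ := hx
      intro x' hx'
      apply hxy
      rw [mem_box] at hx' hy' ⊢
      exact ⟨hy'.1, hx'.2⟩
    rw [hh y hy x ((L:ℤ)+1)]
    exact hv _ hout1 _ _

open Relation in
theorem contour (L : ℕ) (bad : V → Prop) (hb : ∀ v, bad v → v ∈ box L) (h0 : bad (0,0)) :
    ∃ R : Finset V, ((0,0) : V) ∈ R ∧ R ⊆ box L ∧ Linked (bd R) ∧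
      ∀ e ∈ bd R, (src e ∈ R → bad (src e) ∧ ¬ bad (tgt e)) ∧
        (tgt e ∈ R → bad (tgt e) ∧ ¬ bad (src e)) := by
  classical
  -- the cluster of the origin
  let C : Set V := {v | ReflTransGen (fun a b => adj a b ∧ bad b) (0,0) v}
  have hCbad : ∀ v ∈ C, bad v := by
    intro v hv
    rcases ReflTransGen.cases_tail hv with h | ⟨w, _, hw⟩
    · rw [h]; exact h0
    · exact hw.2
  have hCadj : ∀ v ∈ C, ∀ w, adj v w → bad w → w ∈ C := by
    intro v hv w hvw hw
    exact ReflTransGen.tail hv ⟨hvw, hw⟩
  have h0C : ((0,0) : V) ∈ C := ReflTransGen.refl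
  -- the outside
  let U : Set V := {v | ∃ o, o ∉ box L ∧ ReflTransGen (fun a b => adj a b ∧ b ∉ C) o v}
  have hUC : ∀ v ∈ U, v ∉ C := by
    rintro v ⟨o, ho, hv⟩ hvC
    rcases ReflTransGen.cases_tail hv with h | ⟨w, _, hw⟩
    · apply ho; rw [← h]; exact hb _ (hCbad _ hvC)
    · exact hw.2 hvC
  have hUadj : ∀ v ∈ U, ∀ w, adj v w → w ∉ C → w ∈ U := by
    rintro v ⟨o, ho, hv⟩ w hvw hw
    exact ⟨o, ho, ReflTransGen.tail hv ⟨hvw, hw⟩⟩
  have hOU : ∀ v, v ∉ box L → v ∈ U := fun v hv => ⟨v, hv, ReflTransGen.refl⟩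
  let R : Finset V := (box L).filter (fun v => v ∉ U)
  have hR : ∀ v, v ∈ R ↔ v ∉ U := by
    intro v
    simp only [R, Finset.mem_filter]
    constructor
    · exact fun h => h.2
    · intro h
      refine ⟨?_, h⟩
      by_contra hv
      exact h (hOU v hv)
  have hCR : ∀ v ∈ C, v ∈ R := by
    intro v hv
    rw [hR]
    intro h
    exact hUC v h hv
  have hcross : ∀ a b : V, adj a b → a ∈ R → b ∉ R → a ∈ C ∧ b ∉ C := by
    intro a b hab ha hb'
    rw [hR] at ha hb'
    push Not at hb'
    refine ⟨?_, hUC b hb'⟩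
    by_contra haC
    exact ha (hUadj b hb' a hab.symm haC)
  refine ⟨R, hCR _ h0C, Finset.filter_subset _ _, ?_, ?_⟩
  · -- linked
    intro T hT hTne hTD
    by_contra hcon
    push Not at hcon
    -- hcon : ∀ a ∈ T, ∀ b ∈ bd R, b ∉ T → ¬ Near a b
    have hclosed : ∀ p : V, ∀ c c' : Fin 4, pe p c ∈ T → pe p c' ∈ bd R → pe p c' ∈ T := by
      intro p c c' h1 h2
      by_contra h3
      exact hcon _ h1 _ h2 h3 ⟨p, c, c', rfl, rfl⟩
    let χ : V → ZMod 2 := fun v => if v ∈ R then 1 else 0
    have hχ : ∀ e : Ed, (if e ∈ bd R then (1 : ZMod 2) else 0) = χ (src e) + χ (tgt e) := by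
      intro e
      have h11 : (1 : ZMod 2) + 1 = 0 := by decide
      by_cases h1 : src e ∈ R <;> by_cases h2 : tgt e ∈ R <;>
        simp [χ, mem_bd, cross, h1, h2, h11]
    let φ : Ed → ZMod 2 := fun e => if e ∈ T then 1 else 0
    have hφ : ∀ p : V, φ (pe p 0) + φ (pe p 1) + φ (pe p 2) + φ (pe p 3) = 0 := by
      intro p
      by_cases hp : ∃ c, pe p c ∈ T
      · obtain ⟨c, hc⟩ := hp
        have hall : ∀ c', φ (pe p c') = (if pe p c' ∈ bd R then (1 : ZMod 2) else 0) := by
          intro c'
          by_cases h2 : pe p c' ∈ bd R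
          · have := hclosed p c c' hc h2
            simp [φ, h2, this]
          · have : pe p c' ∉ T := fun h => h2 (hT h)
            simp [φ, h2, this]
        rw [hall 0, hall 1, hall 2, hall 3, hχ, hχ, hχ, hχ]
        have s0 : src (pe p 0) = (p.1, p.2) := by rw [pe0]; rfl
        have t0 : tgt (pe p 0) = (p.1 + 1, p.2) := by rw [pe0]; rfl
        have s1 : src (pe p 1) = (p.1, p.2 + 1) := by rw [pe1]; rfl
        have t1 : tgt (pe p 1) = (p.1 + 1, p.2 + 1) := by rw [pe1]; rfl
        have s2 : src (pe p 2) = (p.1, p.2) := by rw [pe2]; rfl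
        have t2 : tgt (pe p 2) = (p.1, p.2 + 1) := by rw [pe2]; rfl
        have s3 : src (pe p 3) = (p.1 + 1, p.2) := by rw [pe3]; rfl
        have t3 : tgt (pe p 3) = (p.1 + 1, p.2 + 1) := by rw [pe3]; rfl
        rw [s0, s1, s2, s3, t0, t1, t2, t3]
        have a1 := z2 (χ (p.1, p.2))
        have a2 := z2 (χ (p.1 + 1, p.2))
        have a3 := z2 (χ (p.1, p.2 + 1))
        have a4 := z2 (χ (p.1 + 1, p.2 + 1))
        linear_combination a1 + a2 + a3 + a4
      · push Not at hp
        simp [φ, hp]
    obtain ⟨g, hg⟩ := exists_prim φ hφ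
    have hgeq : ∀ e : Ed, e ∉ bd R → g (src e) = g (tgt e) := by
      intro e he
      have h1 := hg e
      have h2 : φ e = 0 := by
        have : e ∉ T := fun h => he (hT h)
        simp [φ, this]
      rw [h2] at h1
      have h3 := z2 (g (tgt e))
      linear_combination -h1 - h3
    have hgadj : ∀ a b : V, adj a b → (a ∈ R ↔ b ∈ R) → g a = g b := by
      rintro a b ⟨e, he | he⟩ hab
      · rw [← he.1, ← he.2]
        apply hgeq
        rw [mem_bd, cross, he.1, he.2]
        tauto
      · rw [← he.1, ← he.2]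
        symm
        apply hgeq
        rw [mem_bd, cross, he.1, he.2]
        tauto
    have hout := const_outside L g (by
      intro e h1 h2
      apply hgeq
      rw [mem_bd, cross, hR, hR]
      have := hOU _ h1
      have := hOU _ h2
      tauto)
    have hUconst : ∀ v ∈ U, g v = g ((L:ℤ)+1, (L:ℤ)+1) := by
      rintro v ⟨o, ho, hv⟩
      induction hv with
      | refl => exact hout o ho
      | tail hab hbc ih =>
        rename_i b c
        have hbU : b ∈ U := ⟨o, ho, hab⟩
        have hcU : c ∈ U := hUadj b hbU c hbc.1 hbc.2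
        rw [← ih]
        symm
        apply hgadj b c hbc.1
        rw [hR, hR]
        tauto
    have hCconst : ∀ v ∈ C, g v = g (0,0) := by
      intro v hv
      induction hv with
      | refl => rfl
      | tail hab hbc ih =>
        rename_i b c
        have hbC : b ∈ C := hab
        have hcC : c ∈ C := hCadj b hbC c hbc.1 hbc.2
        rw [← ih]
        symm
        apply hgadj b c hbc.1
        have := hCR b hbC
        have := hCR c hcC
        tauto
    have hRconst : ∀ n : ℕ, ∀ v : V, v.1.natAbs + v.2.natAbs = n → v ∈ R → g v = g (0,0) := by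
      intro n
      induction n with
      | zero =>
        rintro ⟨x, y⟩ hv _
        simp only at hv
        have hx : x = 0 := by omega
        have hy : y = 0 := by omega
        subst hx; subst hy; rfl
      | succ n ih =>
        rintro ⟨x, y⟩ hv hvR
        simp only at hv
        by_cases hvC : ((x, y) : V) ∈ C
        · exact hCconst _ hvC
        · have key : ∀ w : V, adj (x, y) w → w.1.natAbs + w.2.natAbs = n → g (x, y) = g (0,0) := by
            intro w hw hwn
            have hwR : w ∈ R := by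
              rw [hR]
              intro hwU
              rw [hR] at hvR
              exact hvR (hUadj w hwU _ hw.symm hvC)
            rw [← ih w hwn hwR]
            apply hgadj _ _ hw
            tauto
          rcases lt_trichotomy x 0 with hx | hx | hx
          · apply key (x+1, y) ⟨(x, y, false), Or.inl ⟨rfl, rfl⟩⟩
            simp only; omega
          · rcases lt_trichotomy y 0 with hy | hy | hy
            · apply key (x, y+1) ⟨(x, y, true), Or.inl ⟨rfl, rfl⟩⟩
              simp only; omega
            · subst hx; subst hy; simp at hv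
            · apply key (x, y-1) ⟨(x, y-1, true), Or.inr ⟨rfl, by simp [tgt]⟩⟩
              simp only; omega
          · apply key (x-1, y) ⟨(x-1, y, false), Or.inr ⟨rfl, by simp [tgt]⟩⟩
            simp only; omega
    have hRc : ∀ v ∈ R, g v = g (0,0) := fun v hv => hRconst _ v rfl hv
    have hval : ∀ e ∈ bd R, φ e = g (0,0) + g ((L:ℤ)+1, (L:ℤ)+1) := by
      intro e he
      rw [hg e]
      rw [mem_bd] at he
      rcases he with ⟨h1, h2⟩ | ⟨h1, h2⟩
      · rw [hR] at h2
        push Not at h2
        rw [hRc _ h1, hUconst _ h2]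
      · rw [hR] at h1
        push Not at h1
        rw [hRc _ h2, hUconst _ h1, add_comm]
    obtain ⟨a, ha⟩ := hTne
    have ha1 : φ a = 1 := by simp [φ, ha]
    apply hTD
    apply Finset.Subset.antisymm hT
    intro b hb'
    have h1 := hval b hb'
    rw [← hval a (hT ha), ha1] at h1
    by_contra hbT
    simp [φ, hbT] at h1
  · intro e he
    have hadj1 : adj (src e) (tgt e) := ⟨e, Or.inl ⟨rfl, rfl⟩⟩
    rw [mem_bd] at he
    constructor
    · intro hs
      have ht : tgt e ∉ R := by
        rcases he with h | h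
        · exact h.2
        · exact absurd hs h.1
      obtain ⟨h1, h2⟩ := hcross _ _ hadj1 hs ht
      exact ⟨hCbad _ h1, fun h => h2 (hCadj _ h1 _ hadj1 h)⟩
    · intro hs
      have ht : src e ∉ R := by
        rcases he with h | h
        · exact absurd hs h.2
        · exact h.1
      obtain ⟨h1, h2⟩ := hcross _ _ hadj1.symm hs ht
      exact ⟨hCbad _ h1, fun h => h2 (hCadj _ h1 _ hadj1.symm h)⟩

end Pool.Agent.NoisyNil
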