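import Mathlib
import Pool.Agent.NoisyNil.Contour

set_option autoImplicit false

namespace Pool.Agent.NoisyNil

abbrev Code := Bool × Fin 4

/-- move from an edge to an edge sharing a plaquette -/
def step (e : Ed) (c : Code) : Ed :=
  pe (if c.1 then (e.1, e.2.1) else (if e.2.2 then (e.1 - 1, e.2.1) else (e.1, e.2.1 - 1))) c.2

lemma near_step (e : Ed) (c : Code) : Near e (step e c) := by
  obtain ⟨x, y, d⟩ := e
  obtain ⟨s, c⟩ := c
  refine ⟨_, (if s then (if d then 2 else 0) else (if d then 3 else 1)), c, ?_, rfl⟩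
  cases s <;> cases d <;> simp [pe]

lemma exists_step {a b : Ed} (h : Near a b) : ∃ c, step a c = b := by
  obtain ⟨p, c, c', rfl, rfl⟩ := h
  fin_cases c
  · exact ⟨(true, c'), by simp [step, pe]⟩
  · exact ⟨(false, c'), by simp [step, pe]⟩
  · exact ⟨(true, c'), by simp [step, pe]⟩
  · exact ⟨(false, c'), by simp [step, pe]⟩

def vis (e : Ed) : List Code → Finset Ed
  | [] => {e}
  | c :: w => insert e (vis (step e c) w)

lemma self_mem_vis (e : Ed) (w : List Code) : e ∈ vis e w := by
  cases w <;> simp [vis]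

lemma detour (u : Ed) (c : Code) (w : List Code) : ∀ e : Ed, u ∈ vis e w →
    ∃ w' : List Code, w'.length = w.length + 2 ∧ vis e w' = insert (step u c) (vis e w) := by
  have base : ∀ (w : List Code), ∃ w' : List Code, w'.length = w.length + 2 ∧
      vis u w' = insert (step u c) (vis u w) := by
    intro w
    obtain ⟨c', hc'⟩ := exists_step (near_step u c).symm
    refine ⟨c :: c' :: w, rfl, ?_⟩
    simp only [vis]
    rw [hc']
    ext z
    have := self_mem_vis u w
    simp only [Finset.mem_insert]
    constructor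
    · rintro (h | h | h)
      · right; rw [h]; exact this
      · left; exact h
      · right; exact h
    · rintro (h | h)
      · right; left; exact h
      · right; right; exact h
  induction w with
  | nil =>
    intro e he
    simp only [vis, Finset.mem_singleton] at he
    subst he
    exact base []
  | cons c0 w ih =>
    intro e he
    simp only [vis, Finset.mem_insert] at he
    rcases he with he | he
    · subst he
      exact base _
    · obtain ⟨w', h1, h2⟩ := ih _ he
      refine ⟨c0 :: w', by simp [h1], ?_⟩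
      simp only [vis]
      rw [h2, Finset.insert_comm]

lemma cover {D : Finset Ed} (hD : Linked D) {e : Ed} (he : e ∈ D) : ∀ k : ℕ, k + 1 ≤ D.card →
    ∃ T : Finset Ed, T ⊆ D ∧ T.card = k + 1 ∧ ∃ w : List Code, w.length = 2 * k ∧ vis e w = T := by
  intro k
  induction k with
  | zero =>
    intro _
    exact ⟨{e}, by simpa using he, by simp, [], rfl, rfl⟩
  | succ k ih =>
    intro hk
    obtain ⟨T, hT, hc, w, hw, hv⟩ := ih (by omega)
    have hTD : T ≠ D := by
      intro h
      rw [h] at hc
      omega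
    obtain ⟨a, ha, b, hb, hbT, hab⟩ := hD T hT (Finset.card_pos.mp (by omega)) hTD
    obtain ⟨c, hc'⟩ := exists_step hab
    rw [← hv] at ha
    obtain ⟨w', h1, h2⟩ := detour a c w e ha
    refine ⟨insert b T, ?_, ?_, w', by omega, ?_⟩
    · intro z hz
      rw [Finset.mem_insert] at hz
      rcases hz with hz | hz
      · rw [hz]; exact hb
      · exact hT hz
    · rw [Finset.card_insert_of_notMem hbT, hc]
    · rw [h2, hc', hv]

lemma cover_all {D : Finset Ed} (hD : Linked D) {e : Ed} (he : e ∈ D) :
    ∃ w : List Code, w.length = 2 * (D.card - 1) ∧ vis e w = D := by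
  have hpos : 0 < D.card := Finset.card_pos.mpr ⟨e, he⟩
  obtain ⟨T, hT, hc, w, hw, hv⟩ := cover hD he (D.card - 1) (by omega)
  have : T = D := Finset.eq_of_subset_of_card_le hT (by omega)
  exact ⟨w, hw, by rw [hv, this]⟩

lemma near_x {a b : Ed} (h : Near a b) : b.1 ≤ a.1 + 1 := by
  obtain ⟨p, c, c', rfl, rfl⟩ := h
  fin_cases c <;> fin_cases c' <;> simp [pe] <;> try omega

lemma interval {D : Finset Ed} (hD : Linked D) {e e' : Ed} (he : e ∈ D) (he' : e' ∈ D)
    (h1 : e.1 < 0) (h2 : 0 ≤ e'.1) : e'.1 < D.card := by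
  classical
  have hsub : Finset.Icc 0 e'.1 ⊆ D.image (fun a : Ed => a.1) := by
    intro j hj
    rw [Finset.mem_Icc] at hj
    by_contra hcon
    rw [Finset.mem_image] at hcon
    push Not at hcon
    obtain ⟨a, ha, b, hb, hbT, hab⟩ := hD (D.filter (fun a => a.1 < j)) (Finset.filter_subset _ _)
      ⟨e, by rw [Finset.mem_filter]; exact ⟨he, by omega⟩⟩ (by
        intro h
        have : e' ∈ D.filter (fun a => a.1 < j) := by rw [h]; exact he'
        rw [Finset.mem_filter] at this
        omega)
    rw [Finset.mem_filter] at ha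
    have h3 := near_x hab
    have h4 : ¬ b.1 < j := by
      intro h
      exact hbT (by rw [Finset.mem_filter]; exact ⟨hb, h⟩)
    have h5 := hcon b hb
    omega
  have h3 := Finset.card_le_card hsub
  have h4 : (D.image (fun a : Ed => a.1)).card ≤ D.card := Finset.card_image_le
  rw [Int.card_Icc] at h3
  have : ((e'.1 + 1 - 0).toNat : ℤ) = e'.1 + 1 := by
    rw [Int.toNat_of_nonneg]
    · ring
    · omega
  omega

lemma exists_right {L : ℕ} {R : Finset V} (h0 : ((0,0) : V) ∈ R) (hR : R ⊆ box L) :
    ∃ k : ℕ, (((k:ℤ), 0, false) : Ed) ∈ bd R := by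
  by_contra hcon
  push Not at hcon
  have hall : ∀ k : ℕ, (((k:ℤ), 0) : V) ∈ R := by
    intro k
    induction k with
    | zero => simpa using h0
    | succ k ih =>
      by_contra h
      apply hcon k
      rw [mem_bd]
      left
      refine ⟨by simpa [src] using ih, ?_⟩
      simpa [tgt] using h
  have := hR (hall (L+1))
  rw [mem_box] at this
  simp only at this
  push_cast at this
  omega

lemma exists_left {L : ℕ} {R : Finset V} (h0 : ((0,0) : V) ∈ R) (hR : R ⊆ box L) :
    ∃ e ∈ bd R, e.1 < 0 := by
  by_contra hcon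
  push Not at hcon
  have hall : ∀ k : ℕ, ((-(k:ℤ), 0) : V) ∈ R := by
    intro k
    induction k with
    | zero => simpa using h0
    | succ k ih =>
      by_contra h
      have h2 := hcon ((-((k+1 : ℕ):ℤ)), 0, false) (by
        rw [mem_bd]
        right
        refine ⟨by simpa [src] using h, ?_⟩
        have : tgt ((-((k+1 : ℕ):ℤ)), 0, false) = (-(k:ℤ), 0) := by
          simp [tgt]
        rw [this]
        exact ih)
      simp only at h2
      push_cast at h2
      omega
  have := hR (hall (L+1))
  rw [mem_box] at this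
  simp only at this
  push_cast at this
  omega

lemma bd_inj {L : ℕ} {R R' : Finset V} (hR : R ⊆ box L) (hR' : R' ⊆ box L) (h : bd R = bd R') :
    R = R' := by
  have hc : ∀ e : Ed, cross R e ↔ cross R' e := by
    intro e
    rw [← mem_bd, ← mem_bd, h]
  have hstep : ∀ x y : ℤ, (((x+1, y) : V) ∈ R ↔ ((x+1, y) : V) ∈ R') → (((x, y) : V) ∈ R ↔ ((x, y) : V) ∈ R') := by
    intro x y hxy
    have := hc (x, y, false)
    simp only [cross, src, tgt] at this
    simp only [Bool.false_eq_true, if_false] at this
    tauto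
  have hall : ∀ n : ℕ, ∀ x y : ℤ, (L:ℤ) + 1 - n ≤ x → (((x, y) : V) ∈ R ↔ ((x, y) : V) ∈ R') := by
    intro n
    induction n with
    | zero =>
      intro x y hx
      have h1 : ((x, y) : V) ∉ box L := by
        intro h
        rw [mem_box] at h
        simp only at h
        push_cast at hx
        omega
      constructor
      · intro h; exact absurd (hR h) h1
      · intro h; exact absurd (hR' h) h1
    | succ n ih =>
      intro x y hx
      apply hstep
      apply ih
      push_cast at hx
      omega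
  ext ⟨x, y⟩
  apply hall ((L:ℤ) + 1 - x).toNat
  have := Int.self_le_toNat ((L:ℤ) + 1 - x)
  omega

open Classical in
noncomputable def Fam (L : ℕ) : Finset (Finset V) :=
  (box L).powerset.filter (fun R => ((0,0) : V) ∈ R ∧ Linked (bd R))

lemma mem_Fam {L : ℕ} {R : Finset V} : R ∈ Fam L ↔ R ⊆ box L ∧ ((0,0) : V) ∈ R ∧ Linked (bd R) := by
  classical
  unfold Fam
  rw [Finset.mem_filter, Finset.mem_powerset]

lemma card_Fam_fiber (L m : ℕ) :
    ((Fam L).filter (fun R => (bd R).card = m)).card ≤ m * 8 ^ (2 * (m - 1)) := by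
  classical
  set F := (Fam L).filter (fun R => (bd R).card = m) with hF
  have h1 : F.card = (F.image bd).card := by
    symm
    apply Finset.card_image_of_injOn
    intro R hR R' hR' h
    have h1 : R ∈ Fam L := Finset.mem_of_mem_filter _ hR
    have h2 : R' ∈ Fam L := Finset.mem_of_mem_filter _ hR'
    exact bd_inj (mem_Fam.mp h1).1 (mem_Fam.mp h2).1 h
  rw [h1]
  have h2 : F.image bd ⊆ (Finset.univ : Finset (Fin m × List.Vector Code (2 * (m - 1)))).image
      (fun q => vis (((q.1 : ℕ) : ℤ), 0, false) q.2.1) := by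
    intro D hD
    rw [Finset.mem_image] at hD
    obtain ⟨R, hR, rfl⟩ := hD
    rw [hF, Finset.mem_filter, mem_Fam] at hR
    obtain ⟨⟨hRb, h0, hL⟩, hm⟩ := hR
    obtain ⟨k, hk⟩ := exists_right h0 hRb
    obtain ⟨e, he, he0⟩ := exists_left h0 hRb
    have hkm := interval hL he hk he0 (by simp)
    simp only at hkm
    obtain ⟨w, hw, hv⟩ := cover_all hL hk
    rw [hm] at hw hkm
    rw [Finset.mem_image]
    refine ⟨(⟨k, by exact_mod_cast hkm⟩, ⟨w, hw⟩), Finset.mem_univ _, ?_⟩
    exact hv
  refine (Finset.card_le_card h2).trans (Finset.card_image_le.trans ?_)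
  rw [Finset.card_univ, Fintype.card_prod, Fintype.card_fin, card_vector]
  simp [Code]

lemma sum_Fam (L : ℕ) (t : ℝ) (ht0 : 0 ≤ t) (ht : t ≤ 11 / 100000) :
    ∑ R ∈ Fam L, t ^ (bd R).card ≤ 1 / 20 := by
  classical
  set M := (Fam L).sup (fun R => (bd R).card) with hM
  have hmaps : ∀ R ∈ Fam L, (bd R).card ∈ Finset.range (M + 1) := by
    intro R hR
    rw [Finset.mem_range]
    have : (bd R).card ≤ M := Finset.le_sup (f := fun R => (bd R).card) hR
    omega
  rw [← Finset.sum_fiberwise_of_maps_to hmaps]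
  have h1 : ∀ m ∈ Finset.range (M + 1),
      ∑ R ∈ (Fam L).filter (fun R => (bd R).card = m), t ^ (bd R).card ≤
        if m = 0 then 0 else (1/50 : ℝ) ^ m := by
    intro m _
    have h2 : ∑ R ∈ (Fam L).filter (fun R => (bd R).card = m), t ^ (bd R).card =
        ((Fam L).filter (fun R => (bd R).card = m)).card * t ^ m := by
      rw [Finset.sum_congr rfl (g := fun _ => t ^ m)]
      · rw [Finset.sum_const, nsmul_eq_mul]
      · intro R hR
        rw [Finset.mem_filter] at hR
        rw [hR.2]
    rw [h2]
    have h3 : (((Fam L).filter (fun R => (bd R).card = m)).card : ℝ) ≤ (m : ℝ) * 8 ^ (2 * (m - 1)) := by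
      exact_mod_cast card_Fam_fiber L m
    split_ifs with hm
    · subst hm
      simp only [Nat.cast_zero, zero_mul] at h3
      have : (((Fam L).filter (fun R => (bd R).card = 0)).card : ℝ) = 0 := le_antisymm h3 (Nat.cast_nonneg _)
      rw [this, zero_mul]
    · obtain ⟨n, rfl⟩ := Nat.exists_eq_succ_of_ne_zero hm
      have h4 : ((n.succ : ℕ) : ℝ) ≤ 2 ^ n := by
        have := Nat.lt_two_pow_self (n := n)
        have h5 : n.succ ≤ 2 ^ n := this
        exact_mod_cast h5
      calc (((Fam L).filter (fun R => (bd R).card = n.succ)).card : ℝ) * t ^ n.succ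
          ≤ ((n.succ : ℕ) : ℝ) * 8 ^ (2 * (n.succ - 1)) * t ^ n.succ := by gcongr
        _ ≤ 2 ^ n * 8 ^ (2 * (n.succ - 1)) * (11 / 100000) ^ n.succ := by gcongr
        _ = 128 ^ n * (11 / 100000) ^ n.succ := by
            rw [Nat.succ_sub_one, pow_mul, ← mul_pow]; norm_num
        _ ≤ 128 ^ n.succ * (11 / 100000) ^ n.succ := by
            gcongr
            · norm_num
            · exact Nat.le_succ n
        _ = (128 * 11 / 100000) ^ n.succ := by rw [← mul_pow]; norm_num
        _ ≤ (1/50) ^ n.succ := pow_le_pow_left₀ (by norm_num) (by norm_num) _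
  refine (Finset.sum_le_sum h1).trans ?_
  rw [Finset.sum_range_succ']
  simp only [Nat.add_eq_zero_iff, one_ne_zero, and_false, if_false, if_true, add_zero]
  have h5 : ∑ k ∈ Finset.range M, (1/50 : ℝ) ^ (k + 1) = (1/50) * ∑ k ∈ Finset.range M, (1/50 : ℝ) ^ k := by
    rw [Finset.mul_sum]
    exact Finset.sum_congr rfl (fun k _ => by ring)
  rw [h5, geom_sum_eq (by norm_num)]
  have h6 : (0:ℝ) ≤ (1/50)^M := by positivity
  have : (1 / 50 : ℝ) * (((1 / 50) ^ M - 1) / (1 / 50 - 1)) = (1 - (1/50)^M) / 49 := by ring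
  rw [this]
  linarith

end Pool.Agent.NoisyNil
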