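import Mathlib
import Pool.Agent.NoisyNil.Count

set_option autoImplicit false

namespace Pool.Agent.NoisyNil

/-- the alphabet: `0` is plus, `1` is minus, the nine others are labels of spin zero -/
abbrev A := Fin 11

def spin (a : A) : ℤ := if a = 0 then 1 else if a = 1 then -1 else 0
def kap (a : A) : ℤ := if a = 0 ∨ a = 1 then 0 else -4
def flip (a : A) : A := if a = 0 then 1 else if a = 1 then 0 else a

lemma spin_flip (a : A) : spin (flip a) = - spin a := by revert a; decide
lemma kap_flip (a : A) : kap (flip a) = kap a := by revert a; decide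
lemma flip_flip (a : A) : flip (flip a) = a := by revert a; decide
lemma spin_le (a : A) : spin a ≤ 1 := by revert a; decide
lemma le_spin (a : A) : -1 ≤ spin a := by revert a; decide
lemma spin_nonpos {a : A} (h : a ≠ 0) : spin a ≤ 0 := by revert a; decide
lemma kap_of_spin {a : A} (h : spin a = 0) : kap a = -4 := by revert a; decide
lemma eq_one {a : A} (h : a ≠ 0) (h' : spin a ≠ 0) : a = 1 := by revert a; decide
lemma spin_zero : spin 0 = 1 := by decide
lemma spin_one : spin 1 = -1 := by decide
lemma kap_zero : kap 0 = 0 := by decide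
lemma kap_one : kap 1 = 0 := by decide

def ext (Λ : Finset V) (u : Λ → A) : V → A := fun v => if h : v ∈ Λ then u ⟨v, h⟩ else 0

lemma ext_mem {Λ : Finset V} (u : Λ → A) (v : Λ) : ext Λ u v = u v := by
  unfold ext
  rw [dif_pos v.2]

lemma ext_notMem {Λ : Finset V} (u : Λ → A) {v : V} (h : v ∉ Λ) : ext Λ u v = 0 := by
  unfold ext
  rw [dif_neg h]

noncomputable def EE (L : ℕ) : Finset Ed :=
  Finset.Icc (-((L+1 : ℕ):ℤ)) (L+1 : ℕ) ×ˢ (Finset.Icc (-((L+1 : ℕ):ℤ)) (L+1 : ℕ) ×ˢ Finset.univ)

lemma mem_EE {L : ℕ} {e : Ed} : e ∈ EE L ↔ src e ∈ box (L+1) := by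
  unfold EE
  rw [Finset.mem_product, Finset.mem_product, mem_box, Finset.mem_Icc, Finset.mem_Icc]
  simp [src]

noncomputable def En (L : ℕ) (ω : V → A) : ℤ :=
  ∑ v ∈ box L, kap (ω v) + ∑ e ∈ EE L, spin (ω (src e)) * spin (ω (tgt e))

def inner (R : Finset V) (e : Ed) : V := if src e ∈ R then src e else tgt e

def Bd (R : Finset V) : Finset V := (bd R).image (inner R)

lemma Bd_sub (R : Finset V) : Bd R ⊆ R := by
  intro v hv
  unfold Bd at hv
  rw [Finset.mem_image] at hv
  obtain ⟨e, he, rfl⟩ := hv
  rw [mem_bd] at he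
  unfold inner
  split_ifs with h
  · exact h
  · rcases he with he | he
    · exact absurd he.1 h
    · exact he.2

lemma card_Bd (R : Finset V) : (Bd R).card ≤ (bd R).card := Finset.card_image_le

def Ev (R : Finset V) (ω : V → A) : Prop :=
  ∀ e ∈ bd R, (src e ∈ R → ω (src e) ≠ 0 ∧ ω (tgt e) = 0) ∧
    (tgt e ∈ R → ω (tgt e) ≠ 0 ∧ ω (src e) = 0)

def T (R : Finset V) (ω : V → A) : V → A := fun v =>
  if v ∈ Bd R then 0 else if v ∈ R then flip (ω v) else ω v

lemma Bd_ne {R : Finset V} {ω : V → A} (h : Ev R ω) {v : V} (hv : v ∈ Bd R) : ω v ≠ 0 := by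
  unfold Bd at hv
  rw [Finset.mem_image] at hv
  obtain ⟨e, he, rfl⟩ := hv
  unfold inner
  split_ifs with h1
  · exact ((h e he).1 h1).1
  · have : tgt e ∈ R := by
      rw [mem_bd] at he
      rcases he with he | he
      · exact absurd he.1 h1
      · exact he.2
    exact ((h e he).2 this).1

lemma bd_sub_EE {L : ℕ} {R : Finset V} (hR : R ⊆ box L) : bd R ⊆ EE L := by
  intro e he
  rw [mem_bd] at he
  rw [mem_EE, mem_box]
  obtain ⟨x, y, d⟩ := e
  rcases he with he | he
  · have := hR he.1
    rw [mem_box] at this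
    simp only [src] at this ⊢
    push_cast
    omega
  · have := hR he.2
    rw [mem_box] at this
    cases d <;> simp [src, tgt] at this ⊢ <;> omega

lemma card_src (S : Finset Ed) (Z : Finset V) :
    ((S.filter (fun e => src e ∈ Z)).card : ℤ) ≤ 2 * Z.card := by
  have h : (S.filter (fun e => src e ∈ Z)).card ≤ (Z ×ˢ (Finset.univ : Finset Bool)).card := by
    apply Finset.card_le_card_of_injOn (fun e => (src e, e.2.2))
    · intro e he
      rw [Finset.mem_coe, Finset.mem_filter] at he
      rw [Finset.mem_coe, Finset.mem_product]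
      exact ⟨he.2, Finset.mem_univ _⟩
    · rintro ⟨x, y, d⟩ _ ⟨x', y', d'⟩ _ h
      simpa [src, Prod.mk.injEq, and_assoc] using h
  rw [Finset.card_product, Finset.card_univ, Fintype.card_bool] at h
  omega

lemma card_tgt (S : Finset Ed) (Z : Finset V) :
    ((S.filter (fun e => tgt e ∈ Z)).card : ℤ) ≤ 2 * Z.card := by
  have h : (S.filter (fun e => tgt e ∈ Z)).card ≤ (Z ×ˢ (Finset.univ : Finset Bool)).card := by
    apply Finset.card_le_card_of_injOn (fun e => (tgt e, e.2.2))
    · intro e he
      rw [Finset.mem_coe, Finset.mem_filter] at he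
      rw [Finset.mem_coe, Finset.mem_product]
      exact ⟨he.2, Finset.mem_univ _⟩
    · rintro ⟨x, y, d⟩ _ ⟨x', y', d'⟩ _ h
      cases d <;> cases d' <;> simp [tgt] at h ⊢ <;> omega
  rw [Finset.card_product, Finset.card_univ, Fintype.card_bool] at h
  omega

theorem energy {L : ℕ} {R : Finset V} (hR : R ⊆ box L) {ω : V → A} (h : Ev R ω) :
    En L ω + (bd R).card ≤ En L (T R ω) := by
  classical
  set Z := (Bd R).filter (fun v => spin (ω v) = 0) with hZ
  have hZR : ∀ v, v ∈ Z → v ∈ R := fun v hv => Bd_sub R (Finset.mem_of_mem_filter _ hv)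
  -- the vertex part
  have h1 : ∑ v ∈ box L, (kap (ω v) + (if v ∈ Z then 4 else 0)) ≤ ∑ v ∈ box L, kap (T R ω v) := by
    apply Finset.sum_le_sum
    intro v _
    by_cases hvB : v ∈ Bd R
    · have hT : T R ω v = 0 := by simp [T, hvB]
      rw [hT, kap_zero]
      by_cases hs : spin (ω v) = 0
      · have : v ∈ Z := by rw [hZ, Finset.mem_filter]; exact ⟨hvB, hs⟩
        rw [if_pos this, kap_of_spin hs]
        norm_num
      · have : v ∉ Z := by rw [hZ, Finset.mem_filter]; tauto
        rw [if_neg this, eq_one (Bd_ne h hvB) hs, kap_one]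
        norm_num
    · have hvZ : v ∉ Z := by rw [hZ, Finset.mem_filter]; tauto
      rw [if_neg hvZ, add_zero]
      by_cases hvR : v ∈ R
      · simp [T, hvB, hvR, kap_flip]
      · simp [T, hvB, hvR]
  have h2 : ∑ v ∈ box L, (if v ∈ Z then (4:ℤ) else 0) = 4 * Z.card := by
    rw [← Finset.sum_filter]
    have : (box L).filter (fun v => v ∈ Z) = Z := by
      ext v
      rw [Finset.mem_filter]
      constructor
      · exact fun h => h.2
      · exact fun h => ⟨hR (hZR v h), h⟩
    rw [this, Finset.sum_const, nsmul_eq_mul]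
    ring
  rw [Finset.sum_add_distrib, h2] at h1
  -- spins
  have hin : ∀ v, v ∈ R → v ∉ Z → spin (T R ω v) = - spin (ω v) := by
    intro v hvR hvZ
    by_cases hvB : v ∈ Bd R
    · have hs : spin (ω v) ≠ 0 := by
        intro hs
        exact hvZ (by rw [hZ, Finset.mem_filter]; exact ⟨hvB, hs⟩)
      rw [eq_one (Bd_ne h hvB) hs]
      simp [T, hvB, spin_zero, spin_one]
    · simp [T, hvB, hvR, spin_flip]
  have hout : ∀ v, v ∉ R → T R ω v = ω v := by
    intro v hvR
    have : v ∉ Bd R := fun h => hvR (Bd_sub R h)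
    simp [T, this, hvR]
  -- the edge part
  have h3 : ∑ e ∈ EE L, (spin (ω (src e)) * spin (ω (tgt e)) +
      ((if e ∈ bd R then 1 else 0) - (if src e ∈ Z then 1 else 0) - (if tgt e ∈ Z then 1 else 0))) ≤
      ∑ e ∈ EE L, spin (T R ω (src e)) * spin (T R ω (tgt e)) := by
    apply Finset.sum_le_sum
    intro e _
    by_cases hs : src e ∈ R <;> by_cases ht : tgt e ∈ R
    · have hb : e ∉ bd R := by rw [mem_bd, cross]; tauto
      rw [if_neg hb]
      by_cases hsZ : src e ∈ Z
      · rw [if_pos hsZ]
        have h4 : spin (ω (src e)) = 0 := by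
          rw [hZ, Finset.mem_filter] at hsZ; exact hsZ.2
        rw [h4, zero_mul]
        have a1 := spin_le (T R ω (src e))
        have a2 := le_spin (T R ω (src e))
        have a3 := spin_le (T R ω (tgt e))
        have a4 := le_spin (T R ω (tgt e))
        have : -1 ≤ spin (T R ω (src e)) * spin (T R ω (tgt e)) := by nlinarith
        split_ifs <;> linarith
      · rw [if_neg hsZ]
        by_cases htZ : tgt e ∈ Z
        · rw [if_pos htZ]
          have h4 : spin (ω (tgt e)) = 0 := by
            rw [hZ, Finset.mem_filter] at htZ; exact htZ.2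
          rw [h4, mul_zero]
          have a1 := spin_le (T R ω (src e))
          have a2 := le_spin (T R ω (src e))
          have a3 := spin_le (T R ω (tgt e))
          have a4 := le_spin (T R ω (tgt e))
          have : -1 ≤ spin (T R ω (src e)) * spin (T R ω (tgt e)) := by nlinarith
          linarith
        · rw [if_neg htZ, hin _ hs hsZ, hin _ ht htZ]
          linarith
    · have hb : e ∈ bd R := by rw [mem_bd, cross]; tauto
      have htZ : tgt e ∉ Z := fun h => ht (hZR _ h)
      rw [if_pos hb, if_neg htZ, hout _ ht]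
      have h4 := (h e hb).1 hs
      rw [h4.2, spin_zero]
      have h5 : src e ∈ Bd R := by
        unfold Bd
        rw [Finset.mem_image]
        exact ⟨e, hb, by simp [inner, hs]⟩
      have h6 : T R ω (src e) = 0 := by simp [T, h5]
      rw [h6, spin_zero]
      have h7 := spin_nonpos h4.1
      split_ifs <;> linarith
    · have hb : e ∈ bd R := by rw [mem_bd, cross]; tauto
      have htZ : src e ∉ Z := fun h => hs (hZR _ h)
      rw [if_pos hb, if_neg htZ, hout _ hs]
      have h4 := (h e hb).2 ht
      rw [h4.2, spin_zero]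
      have h5 : tgt e ∈ Bd R := by
        unfold Bd
        rw [Finset.mem_image]
        exact ⟨e, hb, by simp [inner, hs]⟩
      have h6 : T R ω (tgt e) = 0 := by simp [T, h5]
      rw [h6, spin_zero]
      have h7 := spin_nonpos h4.1
      split_ifs <;> linarith
    · have hb : e ∉ bd R := by rw [mem_bd, cross]; tauto
      have hsZ : src e ∉ Z := fun h => hs (hZR _ h)
      have htZ : tgt e ∉ Z := fun h => ht (hZR _ h)
      rw [if_neg hb, if_neg hsZ, if_neg htZ, hout _ hs, hout _ ht]
      linarith
  have h4 : ∑ e ∈ EE L, (if e ∈ bd R then (1:ℤ) else 0) = (bd R).card := by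
    rw [← Finset.sum_filter]
    have : (EE L).filter (fun e => e ∈ bd R) = bd R := by
      ext v
      rw [Finset.mem_filter]
      exact ⟨fun h => h.2, fun h => ⟨bd_sub_EE hR h, h⟩⟩
    rw [this, Finset.sum_const, nsmul_eq_mul]
    ring
  have h5 : ∑ e ∈ EE L, (if src e ∈ Z then (1:ℤ) else 0) ≤ 2 * Z.card := by
    rw [← Finset.sum_filter, Finset.sum_const, nsmul_eq_mul, mul_one]
    exact card_src _ _
  have h6 : ∑ e ∈ EE L, (if tgt e ∈ Z then (1:ℤ) else 0) ≤ 2 * Z.card := by
    rw [← Finset.sum_filter, Finset.sum_const, nsmul_eq_mul, mul_one]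
    exact card_tgt _ _
  rw [Finset.sum_add_distrib, Finset.sum_sub_distrib, Finset.sum_sub_distrib, h4] at h3
  unfold En
  linarith

/-- the base of the Boltzmann weights -/
def bb : ℝ := 100000

noncomputable def Wt (L : ℕ) (u : box L → A) : ℝ := bb ^ (En L (ext (box L) u))

lemma bb_pos : (0:ℝ) < bb := by norm_num [bb]
lemma bb_one : (1:ℝ) ≤ bb := by norm_num [bb]

lemma Wt_pos (L : ℕ) (u : box L → A) : 0 < Wt L u := zpow_pos bb_pos _

open Classical in
theorem flip_bound {L : ℕ} {R : Finset V} (hR : R ⊆ box L) :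
    ∑ u : box L → A, (if Ev R (ext (box L) u) then Wt L u else 0) ≤
      (11 / bb) ^ (bd R).card * ∑ u : box L → A, Wt L u := by
  set Tu : (box L → A) → (box L → A) := fun u v => T R (ext (box L) u) v with hTu
  have hext : ∀ u, ext (box L) (Tu u) = T R (ext (box L) u) := by
    intro u
    funext v
    by_cases hv : v ∈ box L
    · exact ext_mem (Tu u) ⟨v, hv⟩
    · rw [ext_notMem _ hv]
      have h1 : v ∉ R := fun h => hv (hR h)
      have h2 : v ∉ Bd R := fun h => h1 (Bd_sub R h)
      simp [T, h1, h2, ext_notMem u hv]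
  set S := (Finset.univ : Finset (box L → A)).filter (fun u => Ev R (ext (box L) u)) with hS
  rw [← Finset.sum_filter, ← hS]
  set Φ : (box L → A) → (box L → A) × (Bd R → A) := fun u => (Tu u, fun v => ext (box L) u v) with hΦ
  have hinj : Set.InjOn Φ (S : Set (box L → A)) := by
    intro u hu u' hu' huu
    rw [hΦ] at huu
    simp only [Prod.mk.injEq] at huu
    obtain ⟨h1, h2⟩ := huu
    funext v
    have h3 : T R (ext (box L) u) v = T R (ext (box L) u') v := congrFun h1 v
    rw [← ext_mem u v, ← ext_mem u' v]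
    by_cases hvB : (v : V) ∈ Bd R
    · exact congrFun h2 ⟨v, hvB⟩
    · unfold T at h3
      rw [if_neg hvB, if_neg hvB] at h3
      by_cases hvR : (v : V) ∈ R
      · rw [if_pos hvR, if_pos hvR] at h3
        rw [← flip_flip (ext (box L) u v), h3, flip_flip]
      · rw [if_neg hvR, if_neg hvR] at h3
        exact h3
  have h1 : ∀ u ∈ S, Wt L u ≤ (1 / bb) ^ (bd R).card * Wt L (Tu u) := by
    intro u hu
    rw [hS, Finset.mem_filter] at hu
    have h2 := energy hR hu.2
    unfold Wt
    rw [hext u]
    have h3 : bb ^ (En L (ext (box L) u) + ((bd R).card : ℤ)) ≤ bb ^ (En L (T R (ext (box L) u))) :=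
      zpow_le_zpow_right₀ bb_one h2
    rw [zpow_add₀ bb_pos.ne', zpow_natCast] at h3
    rw [one_div, inv_pow, inv_mul_eq_div, le_div_iff₀ (pow_pos bb_pos _)]
    exact h3
  calc ∑ u ∈ S, Wt L u ≤ ∑ u ∈ S, (1 / bb) ^ (bd R).card * Wt L (Tu u) := Finset.sum_le_sum h1
    _ = (1 / bb) ^ (bd R).card * ∑ u ∈ S, Wt L (Φ u).1 := by rw [Finset.mul_sum]
    _ = (1 / bb) ^ (bd R).card * ∑ q ∈ S.image Φ, Wt L q.1 := by
        rw [Finset.sum_image hinj]
    _ ≤ (1 / bb) ^ (bd R).card * ∑ q : (box L → A) × (Bd R → A), Wt L q.1 := by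
        apply mul_le_mul_of_nonneg_left _ (by have := bb_pos; positivity)
        apply Finset.sum_le_sum_of_subset_of_nonneg (Finset.subset_univ _)
        intro q _ _
        exact (Wt_pos L q.1).le
    _ = (1 / bb) ^ (bd R).card * (11 ^ (Bd R).card * ∑ u : box L → A, Wt L u) := by
        rw [Fintype.sum_prod_type]
        simp only [Finset.sum_const, Finset.card_univ, nsmul_eq_mul]
        rw [← Finset.mul_sum]
        congr 2
        simp [A]
    _ ≤ (1 / bb) ^ (bd R).card * (11 ^ (bd R).card * ∑ u : box L → A, Wt L u) := by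
        apply mul_le_mul_of_nonneg_left _ (by have := bb_pos; positivity)
        apply mul_le_mul_of_nonneg_right _ (Finset.sum_nonneg (fun u _ => (Wt_pos L u).le))
        exact pow_le_pow_right₀ (by norm_num) (card_Bd R)
    _ = (11 / bb) ^ (bd R).card * ∑ u : box L → A, Wt L u := by
        rw [← mul_assoc, ← mul_pow]
        congr 2
        ring

open Classical in
theorem peierls (L : ℕ) :
    ∑ u : box L → A, (if ext (box L) u (0,0) ≠ 0 then Wt L u else 0) ≤
      (1 / 20) * ∑ u : box L → A, Wt L u := by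
  have hZ : 0 ≤ ∑ u : box L → A, Wt L u := Finset.sum_nonneg (fun u _ => (Wt_pos L u).le)
  calc ∑ u : box L → A, (if ext (box L) u (0,0) ≠ 0 then Wt L u else 0)
      ≤ ∑ u : box L → A, ∑ R ∈ Fam L, (if Ev R (ext (box L) u) then Wt L u else 0) := by
        apply Finset.sum_le_sum
        intro u _
        have hnn : ∀ R ∈ Fam L, 0 ≤ (if Ev R (ext (box L) u) then Wt L u else 0) := by
          intro R _
          split_ifs
          · exact (Wt_pos L u).le
          · exact le_rfl
        split_ifs with h
        · obtain ⟨R, h0, hR, hL, hE⟩ := contour L (fun v => ext (box L) u v ≠ 0) (by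
            intro v hv
            by_contra h
            exact hv (ext_notMem u h)) h
          have hmem : R ∈ Fam L := mem_Fam.mpr ⟨hR, h0, hL⟩
          have hEv : Ev R (ext (box L) u) := by
            intro e he
            have := hE e he
            simp only [not_not] at this
            exact this
          have := Finset.single_le_sum hnn hmem
          rw [if_pos hEv] at this
          exact this
        · exact Finset.sum_nonneg hnn
    _ = ∑ R ∈ Fam L, ∑ u : box L → A, (if Ev R (ext (box L) u) then Wt L u else 0) :=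
        Finset.sum_comm
    _ ≤ ∑ R ∈ Fam L, (11 / bb) ^ (bd R).card * ∑ u : box L → A, Wt L u := by
        apply Finset.sum_le_sum
        intro R hR
        exact flip_bound (mem_Fam.mp hR).1
    _ = (∑ R ∈ Fam L, (11 / bb) ^ (bd R).card) * ∑ u : box L → A, Wt L u := by
        rw [Finset.sum_mul]
    _ ≤ (1 / 20) * ∑ u : box L → A, Wt L u := by
        apply mul_le_mul_of_nonneg_right _ hZ
        apply sum_Fam
        · norm_num [bb]
        · norm_num [bb]

end Pool.Agent.NoisyNil
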