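import Mathlib
import Pool.Agent.NoisyNil.Flip

set_option autoImplicit false

namespace Pool.Agent.NoisyNil

/-- sum of the four neighbouring spins -/
def hh (x : V → A) (v : V) : ℤ :=
  spin (x (v.1 + 1, v.2)) + spin (x (v.1 - 1, v.2)) + spin (x (v.1, v.2 + 1)) + spin (x (v.1, v.2 - 1))

noncomputable def ZZ (h : ℤ) : ℝ := ∑ a : A, bb ^ (kap a + spin a * h)
noncomputable def KK (h : ℤ) (a : A) : ℝ := bb ^ (kap a + spin a * h) / ZZ h

lemma ZZ_pos (h : ℤ) : 0 < ZZ h := Finset.sum_pos (fun _ _ => zpow_pos bb_pos _) Finset.univ_nonempty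

lemma KK_pos (h : ℤ) (a : A) : 0 < KK h a := div_pos (zpow_pos bb_pos _) (ZZ_pos h)

lemma KK_sum (h : ℤ) : ∑ a, KK h a = 1 := by
  unfold KK
  rw [← Finset.sum_div]
  exact div_self (ZZ_pos h).ne'

lemma KK_flip (h : ℤ) (a : A) : KK (-h) (flip a) = KK h a := by
  unfold KK
  have h1 : ZZ (-h) = ZZ h := by
    unfold ZZ
    apply Fintype.sum_bijective flip (Function.Involutive.bijective flip_flip)
    intro a
    rw [kap_flip, spin_flip]
    ring_nf
  rw [h1, kap_flip, spin_flip]
  ring_nf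

/-- finite volume one-step operator with plus boundary condition -/
noncomputable def Op (L : ℕ) (f : (V → A) → ℝ) (x : V → A) : ℝ :=
  ∑ u : box L → A, (∏ v : box L, KK (hh x v) (u v)) * f (ext (box L) u)

noncomputable def En2 (L : ℕ) (x y : V → A) : ℤ :=
  ∑ v ∈ box L, (kap (x v) + kap (y v)) +
  ∑ e ∈ EE L, (spin (x (src e)) * spin (y (tgt e)) + spin (y (src e)) * spin (x (tgt e)))

lemma En2_symm (L : ℕ) (x y : V → A) : En2 L x y = En2 L y x := by
  unfold En2
  congr 1
  · exact Finset.sum_congr rfl (fun v _ => by ring)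
  · exact Finset.sum_congr rfl (fun v _ => by ring)

noncomputable def BB (L : ℕ) (x : V → A) : ℤ :=
  ∑ v ∈ box L, kap (x v) +
  (∑ e ∈ (EE L).filter (fun e => tgt e ∉ box L), spin (x (src e)) +
   ∑ e ∈ (EE L).filter (fun e => src e ∉ box L), spin (x (tgt e)))

lemma sum_tgt (L : ℕ) (x y : V → A) :
    ∑ e ∈ (EE L).filter (fun e => tgt e ∈ box L), spin (x (src e)) * spin (y (tgt e)) =
      ∑ v ∈ box L, spin (y v) * (spin (x (v.1 - 1, v.2)) + spin (x (v.1, v.2 - 1))) := by
  have : ∑ v ∈ box L, spin (y v) * (spin (x (v.1 - 1, v.2)) + spin (x (v.1, v.2 - 1))) =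
      ∑ q ∈ box L ×ˢ (Finset.univ : Finset Bool),
        spin (y q.1) * (if q.2 then spin (x (q.1.1, q.1.2 - 1)) else spin (x (q.1.1 - 1, q.1.2))) := by
    rw [Finset.sum_product]
    apply Finset.sum_congr rfl
    intro v _
    rw [Fintype.sum_bool]
    simp
    ring
  rw [this]
  apply Finset.sum_nbij' (fun e => (tgt e, e.2.2))
    (fun q => if q.2 then (q.1.1, q.1.2 - 1, true) else (q.1.1 - 1, q.1.2, false))
  · intro e he
    rw [Finset.mem_filter] at he
    rw [Finset.mem_product]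
    exact ⟨he.2, Finset.mem_univ _⟩
  · rintro ⟨⟨a, b⟩, d⟩ hq
    rw [Finset.mem_product, mem_box] at hq
    rw [Finset.mem_filter, mem_EE, mem_box, mem_box]
    cases d <;> simp [src, tgt] at hq ⊢ <;> omega
  · rintro ⟨a, b, d⟩ _
    cases d <;> simp [tgt]
  · rintro ⟨⟨a, b⟩, d⟩ _
    cases d <;> simp [tgt]
  · rintro ⟨a, b, d⟩ _
    cases d <;> simp [src, tgt] <;> ring

lemma sum_src (L : ℕ) (x y : V → A) :
    ∑ e ∈ (EE L).filter (fun e => src e ∈ box L), spin (y (src e)) * spin (x (tgt e)) =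
      ∑ v ∈ box L, spin (y v) * (spin (x (v.1 + 1, v.2)) + spin (x (v.1, v.2 + 1))) := by
  have : ∑ v ∈ box L, spin (y v) * (spin (x (v.1 + 1, v.2)) + spin (x (v.1, v.2 + 1))) =
      ∑ q ∈ box L ×ˢ (Finset.univ : Finset Bool),
        spin (y q.1) * (if q.2 then spin (x (q.1.1, q.1.2 + 1)) else spin (x (q.1.1 + 1, q.1.2))) := by
    rw [Finset.sum_product]
    apply Finset.sum_congr rfl
    intro v _
    rw [Fintype.sum_bool]
    simp
    ring
  rw [this]
  apply Finset.sum_nbij' (fun e => (src e, e.2.2))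
    (fun q => (q.1.1, q.1.2, q.2))
  · intro e he
    rw [Finset.mem_filter] at he
    rw [Finset.mem_product]
    exact ⟨he.2, Finset.mem_univ _⟩
  · rintro ⟨⟨a, b⟩, d⟩ hq
    rw [Finset.mem_product, mem_box] at hq
    rw [Finset.mem_filter, mem_EE, mem_box, mem_box]
    simp [src] at hq ⊢
    omega
  · rintro ⟨a, b, d⟩ _
    simp [src]
  · rintro ⟨⟨a, b⟩, d⟩ _
    simp [src]
  · rintro ⟨a, b, d⟩ _
    cases d <;> simp [src, tgt]

lemma En2_split (L : ℕ) (x y : V → A) (hy : ∀ v, v ∉ box L → y v = 0) :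
    En2 L x y = BB L x + ∑ v ∈ box L, (kap (y v) + spin (y v) * hh x v) := by
  have h1 : ∑ e ∈ EE L, spin (x (src e)) * spin (y (tgt e)) =
      ∑ v ∈ box L, spin (y v) * (spin (x (v.1 - 1, v.2)) + spin (x (v.1, v.2 - 1))) +
      ∑ e ∈ (EE L).filter (fun e => tgt e ∉ box L), spin (x (src e)) := by
    rw [← Finset.sum_filter_add_sum_filter_not (EE L) (fun e => tgt e ∈ box L), sum_tgt]
    congr 1
    apply Finset.sum_congr rfl
    intro e he
    rw [Finset.mem_filter] at he
    rw [hy _ he.2, spin_zero, mul_one]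
  have h2 : ∑ e ∈ EE L, spin (y (src e)) * spin (x (tgt e)) =
      ∑ v ∈ box L, spin (y v) * (spin (x (v.1 + 1, v.2)) + spin (x (v.1, v.2 + 1))) +
      ∑ e ∈ (EE L).filter (fun e => src e ∉ box L), spin (x (tgt e)) := by
    rw [← Finset.sum_filter_add_sum_filter_not (EE L) (fun e => src e ∈ box L), sum_src]
    congr 1
    apply Finset.sum_congr rfl
    intro e he
    rw [Finset.mem_filter] at he
    rw [hy _ he.2, spin_zero, one_mul]
  unfold En2 BB
  rw [Finset.sum_add_distrib, Finset.sum_add_distrib, Finset.sum_add_distrib, h1, h2]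
  have h3 : ∑ v ∈ box L, spin (y v) * hh x v =
      ∑ v ∈ box L, spin (y v) * (spin (x (v.1 - 1, v.2)) + spin (x (v.1, v.2 - 1))) +
      ∑ v ∈ box L, spin (y v) * (spin (x (v.1 + 1, v.2)) + spin (x (v.1, v.2 + 1))) := by
    rw [← Finset.sum_add_distrib]
    apply Finset.sum_congr rfl
    intro v _
    unfold hh
    ring
  rw [h3]
  ring

noncomputable def W2 (L : ℕ) (u u' : box L → A) : ℝ := bb ^ (En2 L (ext (box L) u) (ext (box L) u'))

lemma W2_pos (L : ℕ) (u u' : box L → A) : 0 < W2 L u u' := zpow_pos bb_pos _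

lemma W2_symm (L : ℕ) (u u' : box L → A) : W2 L u u' = W2 L u' u := by
  unfold W2
  rw [En2_symm]

lemma bb_sum {ι : Type*} (s : Finset ι) (f : ι → ℤ) : bb ^ (∑ i ∈ s, f i) = ∏ i ∈ s, bb ^ (f i) := by
  classical
  induction s using Finset.induction_on with
  | empty => simp
  | insert a s ha ih =>
    rw [Finset.sum_insert ha, Finset.prod_insert ha, zpow_add₀ bb_pos.ne', ih]

lemma W2_eq (L : ℕ) (u u' : box L → A) :
    W2 L u u' = bb ^ (BB L (ext (box L) u)) *
      ∏ v : box L, bb ^ (kap (u' v) + spin (u' v) * hh (ext (box L) u) v) := by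
  unfold W2
  rw [En2_split L _ _ (fun v hv => ext_notMem u' hv), zpow_add₀ bb_pos.ne', bb_sum]
  congr 1
  rw [← Finset.prod_coe_sort]
  apply Finset.prod_congr rfl
  intro v _
  rw [ext_mem]

lemma W2_sum (L : ℕ) (u : box L → A) :
    ∑ u' : box L → A, W2 L u u' = bb ^ (BB L (ext (box L) u)) *
      ∏ v : box L, ZZ (hh (ext (box L) u) v) := by
  simp_rw [W2_eq]
  rw [← Finset.mul_sum]
  congr 1
  unfold ZZ
  rw [Finset.prod_univ_sum, Fintype.piFinset_univ]

lemma kernel_eq (L : ℕ) (u u' : box L → A) :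
    (∑ w : box L → A, W2 L u w) * ∏ v : box L, KK (hh (ext (box L) u) v) (u' v) = W2 L u u' := by
  rw [W2_sum, W2_eq]
  unfold KK
  rw [Finset.prod_div_distrib]
  have : (∏ v : box L, ZZ (hh (ext (box L) u) v)) ≠ 0 :=
    Finset.prod_ne_zero_iff.mpr (fun v _ => (ZZ_pos _).ne')
  field_simp

noncomputable def pp (L : ℕ) (u : box L → A) : ℝ := ∑ w : box L → A, W2 L u w

lemma pp_pos (L : ℕ) (u : box L → A) : 0 < pp L u :=
  Finset.sum_pos (fun w _ => W2_pos L u w) Finset.univ_nonempty

lemma invariance_aux (L : ℕ) (f : (V → A) → ℝ) (u : box L → A) :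
    pp L u * Op L f (ext (box L) u) = ∑ u' : box L → A, W2 L u u' * f (ext (box L) u') := by
  unfold Op
  rw [Finset.mul_sum]
  refine Finset.sum_congr rfl (fun u' _ => ?_)
  have h := kernel_eq L u u'
  have h2 : pp L u * ∏ v : box L, KK (hh (ext (box L) u) v) (u' v) = W2 L u u' := h
  rw [← h2]
  exact (mul_assoc _ _ _).symm

lemma invariance_aux2 (L : ℕ) (u' : box L → A) : ∑ u : box L → A, W2 L u u' = pp L u' := by
  unfold pp
  exact Finset.sum_congr rfl (fun u _ => W2_symm L u u')

lemma invariance (L : ℕ) (f : (V → A) → ℝ) :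
    ∑ u : box L → A, pp L u * Op L f (ext (box L) u) = ∑ u : box L → A, pp L u * f (ext (box L) u) := by
  calc ∑ u : box L → A, pp L u * Op L f (ext (box L) u)
      = ∑ u : box L → A, ∑ u' : box L → A, W2 L u u' * f (ext (box L) u') :=
        Finset.sum_congr rfl (fun u _ => invariance_aux L f u)
    _ = ∑ u' : box L → A, ∑ u : box L → A, W2 L u u' * f (ext (box L) u') := Finset.sum_comm
    _ = ∑ u' : box L → A, pp L u' * f (ext (box L) u') := by
        refine Finset.sum_congr rfl (fun u' _ => ?_)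
        rw [← invariance_aux2, Finset.sum_mul]

lemma invariance_iter (L : ℕ) (f : (V → A) → ℝ) (n : ℕ) :
    ∑ u : box L → A, pp L u * ((Op L)^[n] f) (ext (box L) u) =
      ∑ u : box L → A, pp L u * f (ext (box L) u) := by
  induction n with
  | zero => rfl
  | succ n ih =>
    rw [Function.iterate_succ_apply', invariance, ih]

/-! ### the parity decoupling -/

def even (v : V) : Prop := (v.1 + v.2) % 2 = 0

instance : DecidablePred even := fun v => by unfold even; infer_instance

def mixV (x y : V → A) : V → A := fun v => if even v then x v else y v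

def mixu {L : ℕ} (u u' : box L → A) : box L → A := fun v => if even (v : V) then u v else u' v

lemma ext_mix {L : ℕ} (u u' : box L → A) :
    ext (box L) (mixu u u') = mixV (ext (box L) u) (ext (box L) u') := by
  funext v
  unfold mixV
  by_cases hv : v ∈ box L
  · have h := ext_mem (mixu u u') ⟨v, hv⟩
    have h1 := ext_mem u ⟨v, hv⟩
    have h2 := ext_mem u' ⟨v, hv⟩
    simp only at h h1 h2
    rw [h, h1, h2]
    rfl
  · rw [ext_notMem _ hv, ext_notMem _ hv, ext_notMem _ hv, ite_self]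

lemma even_src_tgt (e : Ed) : even (src e) ↔ ¬ even (tgt e) := by
  obtain ⟨x, y, d⟩ := e
  cases d <;> simp [even, src, tgt] <;> omega

lemma En2_mix (L : ℕ) (x y : V → A) : En2 L x y = En L (mixV x y) + En L (mixV y x) := by
  unfold En2 En
  have h1 : ∑ v ∈ box L, (kap (x v) + kap (y v)) =
      ∑ v ∈ box L, kap (mixV x y v) + ∑ v ∈ box L, kap (mixV y x v) := by
    rw [← Finset.sum_add_distrib]
    apply Finset.sum_congr rfl
    intro v _
    unfold mixV
    split_ifs <;> ring
  have h2 : ∑ e ∈ EE L, (spin (x (src e)) * spin (y (tgt e)) + spin (y (src e)) * spin (x (tgt e))) =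
      ∑ e ∈ EE L, spin (mixV x y (src e)) * spin (mixV x y (tgt e)) +
      ∑ e ∈ EE L, spin (mixV y x (src e)) * spin (mixV y x (tgt e)) := by
    rw [← Finset.sum_add_distrib]
    apply Finset.sum_congr rfl
    intro e _
    have h := even_src_tgt e
    unfold mixV
    by_cases hs : even (src e)
    · have ht := h.mp hs
      rw [if_pos hs, if_neg ht, if_pos hs, if_neg ht]
    · have ht : even (tgt e) := by tauto
      rw [if_neg hs, if_pos ht, if_neg hs, if_pos ht]
      ring
  rw [h1, h2]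
  ring

lemma W2_mix (L : ℕ) (u u' : box L → A) : W2 L u u' = Wt L (mixu u u') * Wt L (mixu u' u) := by
  unfold W2 Wt
  rw [En2_mix, zpow_add₀ bb_pos.ne', ext_mix, ext_mix]

def mixE (L : ℕ) : ((box L → A) × (box L → A)) ≃ ((box L → A) × (box L → A)) where
  toFun q := (mixu q.1 q.2, mixu q.2 q.1)
  invFun q := (mixu q.1 q.2, mixu q.2 q.1)
  left_inv := by
    rintro ⟨u, u'⟩
    simp only [Prod.mk.injEq]
    constructor
    · funext v; unfold mixu; split_ifs <;> rfl
    · funext v; unfold mixu; split_ifs <;> rfl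
  right_inv := by
    rintro ⟨u, u'⟩
    simp only [Prod.mk.injEq]
    constructor
    · funext v; unfold mixu; split_ifs <;> rfl
    · funext v; unfold mixu; split_ifs <;> rfl

open Classical in
lemma sum_mix (L : ℕ) (P : (box L → A) → ℝ) (hP : ∀ u u', P (mixu u u') = P u) :
    ∑ u : box L → A, P u * pp L u = (∑ u : box L → A, P u * Wt L u) * ∑ u : box L → A, Wt L u := by
  unfold pp
  have h1 : ∑ u : box L → A, P u * ∑ w : box L → A, W2 L u w =
      ∑ q : (box L → A) × (box L → A), P q.1 * W2 L q.1 q.2 := by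
    rw [Fintype.sum_prod_type]
    exact Finset.sum_congr rfl (fun u _ => by rw [Finset.mul_sum])
  have h2 : (∑ u : box L → A, P u * Wt L u) * ∑ u : box L → A, Wt L u =
      ∑ q : (box L → A) × (box L → A), P q.1 * Wt L q.1 * Wt L q.2 := by
    rw [Fintype.sum_prod_type, Finset.sum_mul_sum]
  rw [h1, h2]
  apply Fintype.sum_equiv (mixE L)
  rintro ⟨u, u'⟩
  simp only [mixE, Equiv.coe_fn_mk]
  rw [W2_mix, hP]
  ring

open Classical in
theorem pp_bound (L : ℕ) :
    ∑ u : box L → A, (if ext (box L) u (0,0) ≠ 0 then 1 else 0) * pp L u ≤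
      (1 / 20) * ∑ u : box L → A, pp L u := by
  have h1 := sum_mix L (fun u => if ext (box L) u (0,0) ≠ 0 then 1 else 0) (by
    intro u u'
    have : ext (box L) (mixu u u') (0,0) = ext (box L) u (0,0) := by
      rw [ext_mix]
      unfold mixV
      rw [if_pos (by simp [even])]
    simp only [this])
  have h2 := sum_mix L (fun _ => 1) (fun _ _ => rfl)
  simp only [one_mul] at h2
  rw [h1, h2]
  have h3 := peierls L
  have h4 : 0 ≤ ∑ u : box L → A, Wt L u := Finset.sum_nonneg (fun u _ => (Wt_pos L u).le)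
  rw [← mul_assoc]
  apply mul_le_mul_of_nonneg_right _ h4
  refine le_trans (le_of_eq ?_) h3
  apply Finset.sum_congr rfl
  intro u _
  split_ifs <;> simp

end Pool.Agent.NoisyNil
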