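import Mathlib
import Pool.Agent.NoisyNil.Chain

set_option autoImplicit false

namespace Pool.Agent.NoisyNil

lemma prod_coupling {ι : Type*} [Fintype ι] [DecidableEq ι] (p q : ι → A → ℝ) (c : ι → A → A → ℝ)
    (hrow : ∀ i a, ∑ a', c i a a' = p i a) (hcol : ∀ i a', ∑ a, c i a a' = q i a')
    (hnn : ∀ i a a', 0 ≤ c i a a') (hsupp : ∀ i a a', c i a a' ≠ 0 → spin a ≤ spin a')
    (f : (ι → A) → ℝ) (hf : ∀ u u', (∀ i, spin (u i) ≤ spin (u' i)) → f u ≤ f u') :
    ∑ u : ι → A, (∏ i, p i (u i)) * f u ≤ ∑ u : ι → A, (∏ i, q i (u i)) * f u := by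
  have h1 : ∀ u : ι → A, (∏ i, p i (u i)) * f u = ∑ u' : ι → A, (∏ i, c i (u i) (u' i)) * f u := by
    intro u
    rw [← Finset.sum_mul]
    congr 1
    simp_rw [← hrow]
    rw [Finset.prod_univ_sum, Fintype.piFinset_univ]
  have h2 : ∀ u' : ι → A, (∏ i, q i (u' i)) * f u' = ∑ u : ι → A, (∏ i, c i (u i) (u' i)) * f u' := by
    intro u'
    rw [← Finset.sum_mul]
    congr 1
    simp_rw [← hcol]
    rw [Finset.prod_univ_sum, Fintype.piFinset_univ]
  have h3 : ∑ u' : ι → A, ∑ u : ι → A, (∏ i, c i (u i) (u' i)) * f u' =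
      ∑ u : ι → A, ∑ u' : ι → A, (∏ i, c i (u i) (u' i)) * f u' := Finset.sum_comm
  rw [Finset.sum_congr rfl (fun u _ => h1 u), Finset.sum_congr rfl (fun u _ => h2 u), h3]
  apply Finset.sum_le_sum
  intro u _
  apply Finset.sum_le_sum
  intro u' _
  by_cases h : ∏ i, c i (u i) (u' i) = 0
  · rw [h, zero_mul, zero_mul]
  · apply mul_le_mul_of_nonneg_left
    · apply hf
      intro i
      apply hsupp i
      intro h0
      exact h (Finset.prod_eq_zero (Finset.mem_univ i) h0)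
    · exact Finset.prod_nonneg (fun i _ => hnn i _ _)

/-- a probability vector with mass `p0` at plus, `p1` at minus, `pl` at each label -/
def vec (p0 p1 pl : ℝ) (a : A) : ℝ := if a = 0 then p0 else if a = 1 then p1 else pl

noncomputable def cpl (p0 p1 pl q0 q1 ql : ℝ) (a a' : A) : ℝ :=
  if a = 0 then (if a' = 0 then p0 else 0)
  else if a = 1 then
    (if a' = 1 then q1 else if a' = 0 then (if pl ≤ ql then q0 - p0 else p1 - q1) else max (ql - pl) 0)
  else (if a' = a then min pl ql else if a' = 0 then max (pl - ql) 0 else 0)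

lemma sum11 (F : A → ℝ) : ∑ a, F a = F 0 + F 1 + F 2 + F 3 + F 4 + F 5 + F 6 + F 7 + F 8 + F 9 + F 10 := by
  simp only [Fin.sum_univ_castSucc, Fin.sum_univ_zero, zero_add]
  rfl

lemma cpl_row (p0 p1 pl q0 q1 ql : ℝ) (hp : p0 + p1 + 9 * pl = 1) (hq : q0 + q1 + 9 * ql = 1) (a : A) :
    ∑ a', cpl p0 p1 pl q0 q1 ql a a' = vec p0 p1 pl a := by
  rcases le_total pl ql with h | h
  · have h1 : max (ql - pl) 0 = ql - pl := max_eq_left (by linarith)
    have h2 : max (pl - ql) 0 = 0 := max_eq_right (by linarith)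
    have h3 : min pl ql = pl := min_eq_left h
    rw [sum11]; fin_cases a <;> simp [cpl, vec, h1, h2, h3, h] <;> linarith
  · have h1 : max (ql - pl) 0 = 0 := max_eq_right (by linarith)
    have h2 : max (pl - ql) 0 = pl - ql := max_eq_left (by linarith)
    have h3 : min pl ql = ql := min_eq_right h
    by_cases h4 : pl ≤ ql
    · have h5 : pl = ql := le_antisymm h4 h
      rw [sum11]; fin_cases a <;> simp [cpl, vec, h1, h2, h3, h4] <;> linarith
    · rw [sum11]; fin_cases a <;> simp [cpl, vec, h1, h2, h3, h4] <;> linarith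

lemma cpl_col (p0 p1 pl q0 q1 ql : ℝ) (hp : p0 + p1 + 9 * pl = 1) (hq : q0 + q1 + 9 * ql = 1) (a' : A) :
    ∑ a, cpl p0 p1 pl q0 q1 ql a a' = vec q0 q1 ql a' := by
  rcases le_total pl ql with h | h
  · have h1 : max (ql - pl) 0 = ql - pl := max_eq_left (by linarith)
    have h2 : max (pl - ql) 0 = 0 := max_eq_right (by linarith)
    have h3 : min pl ql = pl := min_eq_left h
    rw [sum11]; fin_cases a' <;> simp [cpl, vec, h1, h2, h3, h] <;> linarith
  · have h1 : max (ql - pl) 0 = 0 := max_eq_right (by linarith)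
    have h2 : max (pl - ql) 0 = pl - ql := max_eq_left (by linarith)
    have h3 : min pl ql = ql := min_eq_right h
    by_cases h4 : pl ≤ ql
    · have h5 : pl = ql := le_antisymm h4 h
      rw [sum11]; fin_cases a' <;> simp [cpl, vec, h1, h2, h3, h4] <;> linarith
    · rw [sum11]; fin_cases a' <;> simp [cpl, vec, h1, h2, h3, h4] <;> linarith

lemma cpl_nonneg (p0 p1 pl q0 q1 ql : ℝ) (hp0 : 0 ≤ p0) (hpl : 0 ≤ pl) (hq1 : 0 ≤ q1) (hql : 0 ≤ ql)
    (h0 : p0 ≤ q0) (h1 : q1 ≤ p1) (a a' : A) :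
    0 ≤ cpl p0 p1 pl q0 q1 ql a a' := by
  unfold cpl
  have h2 : 0 ≤ max (ql - pl) 0 := le_max_right _ _
  have h3 : 0 ≤ max (pl - ql) 0 := le_max_right _ _
  have h4 : 0 ≤ min pl ql := le_min hpl hql
  split_ifs <;> first | assumption | linarith

lemma cpl_supp (p0 p1 pl q0 q1 ql : ℝ) (a a' : A) (h : cpl p0 p1 pl q0 q1 ql a a' ≠ 0) :
    spin a ≤ spin a' := by
  by_cases ha : a = 0
  · by_cases ha' : a' = 0
    · rw [ha, ha']
    · exfalso; apply h; simp [cpl, ha, ha']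
  · by_cases ha1 : a = 1
    · rw [ha1, spin_one]
      exact le_spin a'
    · by_cases ha' : a' = a
      · rw [ha']
      · by_cases ha0 : a' = 0
        · rw [ha0, spin_zero]
          exact spin_le a
        · exfalso; apply h; simp [cpl, ha, ha1, ha', ha0]

lemma ZZ_eq (h : ℤ) : ZZ h = bb ^ h + bb ^ (-h) + 9 * bb ^ (-4 : ℤ) := by
  unfold ZZ
  rw [sum11]
  simp [kap, spin]
  ring

lemma KK_vec (h : ℤ) (a : A) :
    KK h a = vec (bb ^ h / ZZ h) (bb ^ (-h) / ZZ h) (bb ^ (-4 : ℤ) / ZZ h) a := by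
  unfold KK vec
  by_cases h0 : a = 0
  · simp [h0, kap, spin]
  · by_cases h1 : a = 1
    · simp [h1, kap, spin]
    · simp [h0, h1, kap, spin]

lemma vec_sum (h : ℤ) : bb ^ h / ZZ h + bb ^ (-h) / ZZ h + 9 * (bb ^ (-4 : ℤ) / ZZ h) = 1 := by
  have := ZZ_pos h
  rw [← mul_div_assoc, ← add_div, ← add_div, ← ZZ_eq]
  exact div_self this.ne'

lemma K0_mono {h h' : ℤ} (hh : h ≤ h') : bb ^ h / ZZ h ≤ bb ^ h' / ZZ h' := by
  rw [div_le_div_iff₀ (ZZ_pos h) (ZZ_pos h'), ZZ_eq, ZZ_eq]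
  have e1 : bb ^ h * bb ^ (-h') ≤ bb ^ h' * bb ^ (-h) := by
    rw [← zpow_add₀ bb_pos.ne', ← zpow_add₀ bb_pos.ne']
    exact zpow_le_zpow_right₀ bb_one (by omega)
  have e2 : bb ^ h * bb ^ (-4 : ℤ) ≤ bb ^ h' * bb ^ (-4 : ℤ) :=
    mul_le_mul_of_nonneg_right (zpow_le_zpow_right₀ bb_one hh) (zpow_pos bb_pos _).le
  nlinarith

lemma K1_mono {h h' : ℤ} (hh : h ≤ h') : bb ^ (-h') / ZZ h' ≤ bb ^ (-h) / ZZ h := by
  rw [div_le_div_iff₀ (ZZ_pos h') (ZZ_pos h), ZZ_eq, ZZ_eq]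
  have e1 : bb ^ (-h') * bb ^ h ≤ bb ^ (-h) * bb ^ h' := by
    rw [← zpow_add₀ bb_pos.ne', ← zpow_add₀ bb_pos.ne']
    exact zpow_le_zpow_right₀ bb_one (by omega)
  have e2 : bb ^ (-h') * bb ^ (-4 : ℤ) ≤ bb ^ (-h) * bb ^ (-4 : ℤ) :=
    mul_le_mul_of_nonneg_right (zpow_le_zpow_right₀ bb_one (by omega)) (zpow_pos bb_pos _).le
  nlinarith

/-- monotone functions of the spins -/
def MonoF (f : (V → A) → ℝ) : Prop := ∀ x y, (∀ v, spin (x v) ≤ spin (y v)) → f x ≤ f y

lemma hh_mono {x y : V → A} (h : ∀ v, spin (x v) ≤ spin (y v)) (v : V) : hh x v ≤ hh y v := by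
  unfold hh
  have := h (v.1 + 1, v.2)
  have := h (v.1 - 1, v.2)
  have := h (v.1, v.2 + 1)
  have := h (v.1, v.2 - 1)
  linarith

lemma Op_mono (L : ℕ) {f : (V → A) → ℝ} (hf : MonoF f) : MonoF (Op L f) := by
  intro x y hxy
  unfold Op
  apply prod_coupling (fun (v : box L) => KK (hh x v)) (fun (v : box L) => KK (hh y v))
    (fun v => cpl (bb ^ (hh x v) / ZZ (hh x v)) (bb ^ (-(hh x v)) / ZZ (hh x v)) (bb ^ (-4 : ℤ) / ZZ (hh x v))
      (bb ^ (hh y v) / ZZ (hh y v)) (bb ^ (-(hh y v)) / ZZ (hh y v)) (bb ^ (-4 : ℤ) / ZZ (hh y v)))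
  · intro v a
    rw [cpl_row _ _ _ _ _ _ (vec_sum _) (vec_sum _), KK_vec]
  · intro v a
    rw [cpl_col _ _ _ _ _ _ (vec_sum _) (vec_sum _), KK_vec]
  · intro v a a'
    have b1 := ZZ_pos (hh x v)
    have b2 := ZZ_pos (hh y v)
    have b3 : ∀ k : ℤ, 0 < bb ^ k := fun k => zpow_pos bb_pos k
    exact cpl_nonneg _ _ _ _ _ _ (div_pos (b3 _) b1).le (div_pos (b3 _) b1).le (div_pos (b3 _) b2).le
      (div_pos (b3 _) b2).le (K0_mono (hh_mono hxy v)) (K1_mono (hh_mono hxy v)) a a'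
  · intro v a a' h
    exact cpl_supp _ _ _ _ _ _ a a' h
  · intro u u' huu
    apply hf
    intro v
    by_cases hv : v ∈ box L
    · have h1 := ext_mem u ⟨v, hv⟩
      have h2 := ext_mem u' ⟨v, hv⟩
      simp only at h1 h2
      rw [h1, h2]
      exact huu _
    · rw [ext_notMem _ hv, ext_notMem _ hv]

/-- the indicator of plus at the origin -/
def f0 (x : V → A) : ℝ := if x (0,0) = 0 then 1 else 0

lemma f0_mono : MonoF f0 := by
  intro x y h
  unfold f0
  by_cases h1 : x (0,0) = 0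
  · have h2 := h (0,0)
    rw [h1, spin_zero] at h2
    have h3 : y (0,0) = 0 := by
      by_contra h4
      have := spin_nonpos h4
      omega
    rw [if_pos h1, if_pos h3]
  · rw [if_neg h1]
    split_ifs <;> norm_num

theorem lower_bound (L n : ℕ) : 19 / 20 ≤ ((Op L)^[n] f0) (fun _ => 0) := by
  classical
  have hmono : MonoF ((Op L)^[n] f0) := by
    induction n with
    | zero => exact f0_mono
    | succ n ih =>
      rw [Function.iterate_succ_apply']
      exact Op_mono L ih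
  have h1 := invariance_iter L f0 n
  have h2 : ∑ u : box L → A, pp L u * ((Op L)^[n] f0) (ext (box L) u) ≤
      ∑ u : box L → A, pp L u * ((Op L)^[n] f0) (fun _ => 0) := by
    apply Finset.sum_le_sum
    intro u _
    apply mul_le_mul_of_nonneg_left _ (pp_pos L u).le
    apply hmono
    intro v
    rw [spin_zero]
    exact spin_le _
  rw [← Finset.sum_mul] at h2
  have h3 := pp_bound L
  have h4 : ∑ u : box L → A, pp L u * f0 (ext (box L) u) =
      ∑ u : box L → A, pp L u - ∑ u : box L → A, (if ext (box L) u (0,0) ≠ 0 then 1 else 0) * pp L u := by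
    rw [← Finset.sum_sub_distrib]
    apply Finset.sum_congr rfl
    intro u _
    unfold f0
    by_cases h : ext (box L) u (0,0) = 0
    · simp [h]
    · simp [h]
  have h5 : 0 < ∑ u : box L → A, pp L u := Finset.sum_pos (fun u _ => pp_pos L u) Finset.univ_nonempty
  rw [h1, h4] at h2
  by_contra hcon
  push Not at hcon
  nlinarith

end Pool.Agent.NoisyNil
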