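import Mathlib
import Pool.Agent.NoisyNil.Mono

set_option autoImplicit false
open MeasureTheory Filter Topology

namespace Pool.Agent.NoisyNil

abbrev S := Fin 2 → ℤ

/-- label of a field value -/
def lab (h : ℤ) : Fin 11 := ⟨(h + 6).toNat % 11, Nat.mod_lt _ (by norm_num)⟩
def hval (k : Fin 11) : ℤ := (k : ℕ) - 6

lemma hval_lab {h : ℤ} (h1 : -4 ≤ h) (h2 : h ≤ 4) : hval (lab h) = h := by
  unfold hval lab
  have : (h + 6).toNat < 11 := by omega
  simp only [Nat.mod_eq_of_lt this]
  omega

lemma spin_lab {h : ℤ} (h1 : -4 ≤ h) (h2 : h ≤ 4) : spin (lab h) = 0 := by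
  have : (h + 6).toNat < 11 := by omega
  unfold spin lab
  rw [if_neg, if_neg]
  · rw [Fin.ext_iff]
    simp only [Nat.mod_eq_of_lt this]
    show ¬ (h + 6).toNat = 1
    omega
  · rw [Fin.ext_iff]
    simp only [Nat.mod_eq_of_lt this]
    show ¬ (h + 6).toNat = 0
    omega

lemma hh_bounds (x : V → A) (v : V) : -4 ≤ hh x v ∧ hh x v ≤ 4 := by
  unfold hh
  have a1 := spin_le (x (v.1 + 1, v.2))
  have a2 := spin_le (x (v.1 - 1, v.2))
  have a3 := spin_le (x (v.1, v.2 + 1))
  have a4 := spin_le (x (v.1, v.2 - 1))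
  have b1 := le_spin (x (v.1 + 1, v.2))
  have b2 := le_spin (x (v.1 - 1, v.2))
  have b3 := le_spin (x (v.1, v.2 + 1))
  have b4 := le_spin (x (v.1, v.2 - 1))
  constructor <;> linarith

/-- the noise matrix -/
noncomputable def th (k : Fin 11) : PMF (Fin 11) :=
  PMF.ofFintype (fun a => ENNReal.ofReal (KK (hval k) a)) (by
    rw [← ENNReal.ofReal_sum_of_nonneg (fun a _ => (KK_pos _ a).le), KK_sum, ENNReal.ofReal_one])

lemma th_apply (k a : Fin 11) : th k a = ENNReal.ofReal (KK (hval k) a) := rfl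

lemma th_ne (k a : Fin 11) : th k a ≠ 0 := by
  rw [th_apply]
  simp [KK_pos]

/-- the neighbourhood -/
def Nb : Finset S := {![1,0], ![-1,0], ![0,1], ![0,-1]}

/-- the local rule -/
def rule (w : Nb → Fin 11) : Fin 11 := lab (∑ v : Nb, spin (w v))

/-- the cellular automaton -/
def FF (x : S → Fin 11) : S → Fin 11 := fun i => rule (fun v => x (i + v.1))

def toV (y : S → Fin 11) : V → A := fun v => y ![v.1, v.2]

lemma FF_eq (x : S → Fin 11) (i : S) : FF x i = lab (hh (toV x) (i 0, i 1)) := by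
  unfold FF rule
  congr 1
  rw [Finset.sum_coe_sort Nb (fun v => spin (x (i + v)))]
  unfold Nb
  have e1 : i + ![1, 0] = ![i 0 + 1, i 1] := by
    funext j; fin_cases j <;> simp
  have e2 : i + ![-1, 0] = ![i 0 - 1, i 1] := by
    funext j; fin_cases j <;> simp; ring
  have e3 : i + ![0, 1] = ![i 0, i 1 + 1] := by
    funext j; fin_cases j <;> simp
  have e4 : i + ![0, -1] = ![i 0, i 1 - 1] := by
    funext j; fin_cases j <;> simp; ring
  rw [Finset.sum_insert (by decide), Finset.sum_insert (by decide), Finset.sum_insert (by decide),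
    Finset.sum_singleton, e1, e2, e3, e4]
  unfold hh toV
  ring

lemma FF_nil (x : S → Fin 11) : FF^[2] x = fun _ => lab 0 := by
  funext i
  show FF (FF x) i = lab 0
  rw [FF_eq]
  have h : ∀ v : V, spin (toV (FF x) v) = 0 := by
    intro v
    unfold toV
    rw [FF_eq]
    exact spin_lab (hh_bounds _ _).1 (hh_bounds _ _).2
  congr 1
  unfold hh
  rw [h, h, h, h]
  rfl

/-- the transition kernel -/
noncomputable def kap' (x : S → Fin 11) : Measure (S → Fin 11) :=
  Measure.infinitePi (fun i : S => (th (FF x i)).toMeasure)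

instance (x : S → Fin 11) : IsProbabilityMeasure (kap' x) := by
  unfold kap'
  infer_instance

lemma kap'_measurable : Measurable kap' := by
  apply Measurable.measure_of_isPiSystem_of_isProbabilityMeasure
    (S := measurableCylinders (fun _ : S => Fin 11)) generateFrom_measurableCylinders.symm
    isPiSystem_measurableCylinders
  intro t ht
  rw [mem_measurableCylinders] at ht
  obtain ⟨s, B, hB, rfl⟩ := ht
  have h1 : (fun x => kap' x (cylinder s B)) =
      (fun w : s → Fin 11 => Measure.pi (fun i : s => (th (w i)).toMeasure) B) ∘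
        (fun x : S → Fin 11 => fun i : s => FF x i) := by
    funext x
    unfold kap'
    rw [Measure.infinitePi_cylinder _ hB]
    rfl
  rw [h1]
  apply Measurable.comp (measurable_of_finite _)
  apply measurable_pi_lambda
  intro i
  have h2 : (fun x : S → Fin 11 => FF x i) = rule ∘ (fun x : S → Fin 11 => fun v : Nb => x (i + v.1)) := rfl
  rw [h2]
  apply Measurable.comp (measurable_of_finite _)
  apply measurable_pi_lambda
  intro v
  exact measurable_pi_apply _

/-- locality -/
def Loc (Λ : Finset V) (f : (V → A) → ENNReal) : Prop :=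
  ∀ z z' : V → A, (∀ v ∈ Λ, z v = z' v) → f z = f z'

lemma Loc.mono {Λ Λ' : Finset V} (h : Λ ⊆ Λ') {f : (V → A) → ENNReal} (hf : Loc Λ f) : Loc Λ' f :=
  fun z z' hz => hf z z' (fun v hv => hz v (h hv))

def rr (Λ : Finset V) (y : S → Fin 11) : Λ → A := fun v => toV y v

lemma rr_measurable (Λ : Finset V) : Measurable (rr Λ) := by
  apply measurable_pi_lambda
  intro v
  exact measurable_pi_apply _

lemma Loc.eq {Λ : Finset V} {f : (V → A) → ENNReal} (hf : Loc Λ f) (y : S → Fin 11) :
    f (toV y) = f (ext Λ (rr Λ y)) := by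
  apply hf
  intro v hv
  rw [show ext Λ (rr Λ y) v = rr Λ y ⟨v, hv⟩ from ext_mem (rr Λ y) ⟨v, hv⟩]
  rfl

lemma Loc.measurable {Λ : Finset V} {f : (V → A) → ENNReal} (hf : Loc Λ f) :
    Measurable (fun y : S → Fin 11 => f (toV y)) := by
  have : (fun y : S → Fin 11 => f (toV y)) = (fun u : Λ → A => f (ext Λ u)) ∘ rr Λ := by
    funext y
    exact hf.eq y
  rw [this]
  exact (measurable_of_finite _).comp (rr_measurable Λ)

def eS : V ↪ S := ⟨fun v => ![v.1, v.2], by
  intro v w h
  have h0 := congrFun h 0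
  have h1 := congrFun h 1
  simp at h0 h1
  exact Prod.ext h0 h1⟩

lemma eS_eq (v : V) : (((eS v) 0, (eS v) 1) : V) = v := rfl

lemma marginal (κ' : S → Measure (Fin 11)) [∀ i, IsProbabilityMeasure (κ' i)] {Λ : Finset V}
    {f : (V → A) → ENNReal} (hf : Loc Λ f) :
    ∫⁻ y, f (toV y) ∂(Measure.infinitePi κ') =
      ∑ u : Λ → A, (∏ v : Λ, κ' (eS v) {u v}) * f (ext Λ u) := by
  have h1 : ∫⁻ y, f (toV y) ∂(Measure.infinitePi κ') =
      ∫⁻ u, f (ext Λ u) ∂((Measure.infinitePi κ').map (rr Λ)) := by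
    rw [lintegral_map (measurable_of_finite _) (rr_measurable Λ)]
    apply lintegral_congr
    intro y
    exact hf.eq y
  rw [h1, lintegral_fintype]
  apply Finset.sum_congr rfl
  intro u _
  rw [mul_comm]
  congr 1
  rw [Measure.map_apply (rr_measurable Λ) (measurableSet_singleton u)]
  have h2 : rr Λ ⁻¹' {u} = Set.pi (Λ.map eS) (fun i => {ext Λ u (i 0, i 1)}) := by
    ext y
    rw [Set.mem_preimage, Set.mem_singleton_iff, Set.mem_pi]
    constructor
    · intro h i hi
      rw [Finset.mem_coe, Finset.mem_map] at hi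
      obtain ⟨v, hv, rfl⟩ := hi
      rw [Set.mem_singleton_iff]
      rw [eS_eq, show ext Λ u v = u ⟨v, hv⟩ from ext_mem u ⟨v, hv⟩, ← h]
      rfl
    · intro h
      funext v
      have h3 := h (eS v) (by rw [Finset.mem_coe, Finset.mem_map]; exact ⟨v, v.2, rfl⟩)
      rw [Set.mem_singleton_iff] at h3
      rw [eS_eq, ext_mem] at h3
      exact h3
  rw [h2]
  refine (Measure.infinitePi_pi κ' (fun i _ => measurableSet_singleton _)).trans ?_
  rw [Finset.prod_map, ← Finset.prod_coe_sort]
  apply Finset.prod_congr rfl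
  intro v _
  rw [eS_eq, ext_mem]

/-- one step operator on functions of `V`-configurations -/
noncomputable def QQ (f : (V → A) → ENNReal) (z : V → A) : ENNReal :=
  ∫⁻ y, f (toV y) ∂(Measure.infinitePi (fun i : S => (th (lab (hh z (i 0, i 1)))).toMeasure))

lemma QQ_eq {Λ : Finset V} {f : (V → A) → ENNReal} (hf : Loc Λ f) (z : V → A) :
    QQ f z = ∑ u : Λ → A, (∏ v : Λ, ENNReal.ofReal (KK (hh z v) (u v))) * f (ext Λ u) := by
  unfold QQ
  rw [marginal _ hf]
  apply Finset.sum_congr rfl
  intro u _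
  congr 1
  apply Finset.prod_congr rfl
  intro v _
  rw [PMF.toMeasure_apply_singleton _ _ (measurableSet_singleton _)]
  rw [eS_eq, th_apply, hval_lab (hh_bounds _ _).1 (hh_bounds _ _).2]

lemma QQ_loc {n : ℕ} {f : (V → A) → ENNReal} (hf : Loc (box n) f) : Loc (box (n+1)) (QQ f) := by
  intro z z' hz
  rw [QQ_eq hf, QQ_eq hf]
  have : ∀ v : box n, hh z v = hh z' v := by
    rintro ⟨⟨a, b⟩, hv⟩
    rw [mem_box] at hv
    simp only at hv
    unfold hh
    simp only
    rw [hz (a+1, b) (by rw [mem_box]; simp only; push_cast; omega),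
      hz (a-1, b) (by rw [mem_box]; simp only; push_cast; omega),
      hz (a, b+1) (by rw [mem_box]; simp only; push_cast; omega),
      hz (a, b-1) (by rw [mem_box]; simp only; push_cast; omega)]
  simp only [this]

lemma QQ_iter_loc {f : (V → A) → ENNReal} (hf : Loc (box 0) f) (n : ℕ) : Loc (box n) (QQ^[n] f) := by
  induction n with
  | zero => exact hf
  | succ n ih =>
    rw [Function.iterate_succ_apply']
    exact QQ_loc ih

noncomputable def g0 (c : A) (z : V → A) : ENNReal := if z (0,0) = c then 1 else 0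

lemma g0_loc (c : A) : Loc (box 0) (g0 c) := by
  intro z z' h
  unfold g0
  rw [h (0,0) (by rw [mem_box]; simp)]

lemma box_mono {n m : ℕ} (h : n ≤ m) : box n ⊆ box m := by
  intro v hv
  rw [mem_box] at hv ⊢
  omega

lemma Op_nonneg {L : ℕ} {f : (V → A) → ℝ} (hf : ∀ z, 0 ≤ f z) (z : V → A) : 0 ≤ Op L f z := by
  unfold Op
  apply Finset.sum_nonneg
  intro u _
  exact mul_nonneg (Finset.prod_nonneg (fun v _ => (KK_pos _ _).le)) (hf _)

lemma Op_iter_nonneg {L : ℕ} (n : ℕ) (z : V → A) : 0 ≤ ((Op L)^[n] f0) z := by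
  induction n generalizing z with
  | zero =>
    show 0 ≤ f0 z
    unfold f0
    split_ifs <;> norm_num
  | succ n ih =>
    rw [Function.iterate_succ_apply']
    exact Op_nonneg ih z

lemma QQ_Op (L : ℕ) : ∀ n ≤ L + 1, ∀ z, (QQ^[n] (g0 0)) z = ENNReal.ofReal (((Op L)^[n] f0) z) := by
  intro n
  induction n with
  | zero =>
    intro _ z
    show g0 0 z = ENNReal.ofReal (f0 z)
    unfold g0 f0
    split_ifs <;> simp
  | succ n ih =>
    intro hn z
    rw [Function.iterate_succ_apply', Function.iterate_succ_apply',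
      QQ_eq ((QQ_iter_loc (g0_loc 0) n).mono (box_mono (by omega : n ≤ L)))]
    unfold Op
    rw [ENNReal.ofReal_sum_of_nonneg]
    · apply Finset.sum_congr rfl
      intro u _
      rw [ih (by omega), ← ENNReal.ofReal_prod_of_nonneg (fun v _ => (KK_pos _ _).le),
        ← ENNReal.ofReal_mul (Finset.prod_nonneg (fun v _ => (KK_pos _ _).le))]
      rfl
    · intro u _
      exact mul_nonneg (Finset.prod_nonneg (fun v _ => (KK_pos _ _).le)) (Op_iter_nonneg n _)

lemma plus_bound (n : ℕ) : ENNReal.ofReal (19/20) ≤ (QQ^[n] (g0 0)) (fun _ => 0) := by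
  rw [QQ_Op n n (by omega)]
  exact ENNReal.ofReal_le_ofReal (lower_bound n n)

def fl (z : V → A) : V → A := fun v => flip (z v)

lemma hh_fl (z : V → A) (v : V) : hh (fl z) v = - hh z v := by
  unfold hh fl
  rw [spin_flip, spin_flip, spin_flip, spin_flip]
  ring

lemma QQ_flip (n : ℕ) : ∀ z, (QQ^[n] (g0 1)) z = (QQ^[n] (g0 0)) (fl z) := by
  induction n with
  | zero =>
    intro z
    show g0 1 z = g0 0 (fl z)
    unfold g0 fl
    have : z (0,0) = 1 ↔ flip (z (0,0)) = 0 := by
      generalize z (0,0) = a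
      revert a
      decide
    simp only [this]
  | succ n ih =>
    intro z
    have hl1 := QQ_iter_loc (g0_loc 1) n
    have hl0 := QQ_iter_loc (g0_loc 0) n
    rw [Function.iterate_succ_apply', Function.iterate_succ_apply', QQ_eq hl1, QQ_eq hl0]
    apply Fintype.sum_bijective (fun u : box n → A => fun v => flip (u v))
    · apply Function.Involutive.bijective
      intro u
      funext v
      exact flip_flip _
    · intro u
      congr 1
      · apply Finset.prod_congr rfl
        intro v _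
        rw [hh_fl, KK_flip]
      · rw [ih]
        apply hl0
        intro v hv
        unfold fl
        rw [show ext (box n) u v = u ⟨v, hv⟩ from ext_mem u ⟨v, hv⟩,
          show ext (box n) (fun v => flip (u v)) v = flip (u ⟨v, hv⟩) from
            ext_mem (fun v => flip (u v)) ⟨v, hv⟩]

lemma minus_bound (n : ℕ) : ENNReal.ofReal (19/20) ≤ (QQ^[n] (g0 1)) (fun _ => 1) := by
  rw [QQ_flip]
  exact plus_bound n

noncomputable def PP (m : Measure (S → Fin 11)) : Measure (S → Fin 11) := m.bind kap'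

lemma PP_lint {n : ℕ} {f : (V → A) → ENNReal} (hf : Loc (box n) f) (m : Measure (S → Fin 11)) :
    ∫⁻ y, f (toV y) ∂(PP m) = ∫⁻ x, (QQ f) (toV x) ∂m := by
  unfold PP
  rw [Measure.lintegral_bind kap'_measurable.aemeasurable hf.measurable.aemeasurable]
  apply lintegral_congr
  intro x
  unfold kap' QQ
  simp only [FF_eq]

lemma PP_iter (n : ℕ) : ∀ (k : ℕ) (f : (V → A) → ENNReal), Loc (box k) f →
    ∀ m : Measure (S → Fin 11), ∫⁻ y, f (toV y) ∂(PP^[n] m) = ∫⁻ x, (QQ^[n] f) (toV x) ∂m := by
  induction n with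
  | zero => intro k f _ m; rfl
  | succ n ih =>
    intro k f hf m
    rw [Function.iterate_succ_apply', PP_lint hf, ih (k+1) _ (QQ_loc hf) m, Function.iterate_succ_apply]

lemma PP_dirac (n : ℕ) (c : A) (x : S → Fin 11) :
    (PP^[n] (Measure.dirac x)) {y | y 0 = c} = (QQ^[n] (g0 c)) (toV x) := by
  have h1 : (PP^[n] (Measure.dirac x)) {y | y 0 = c} =
      ∫⁻ y, (g0 c) (toV y) ∂(PP^[n] (Measure.dirac x)) := by
    have hm0 : Measurable (fun y : S → Fin 11 => y 0) := measurable_pi_apply 0
    have hms : MeasurableSet {y : S → Fin 11 | y 0 = c} := hm0 (measurableSet_singleton c)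
    rw [← lintegral_indicator_one hms]
    apply lintegral_congr
    intro y
    unfold g0 toV
    have : (![(0:ℤ), 0] : S) = 0 := by
      funext j; fin_cases j <;> rfl
    simp only [this, Set.indicator, Set.mem_ofPred_eq, Pi.one_apply]
  rw [h1, PP_iter n 0 _ (g0_loc c), lintegral_dirac']
  exact (QQ_iter_loc (g0_loc c) n).measurable

end Pool.Agent.NoisyNil
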